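import Pool.Agent.V7H62.DM.Rank

/-! # The numbers of the coordinates and of the relations -/

set_option autoImplicit false

namespace Pool.Agent.V7H62.DM

theorem card_Jx (ρ : ℕ) : (Jx ρ).card ≤ ∑ m ∈ Finset.range (ρ + 1), (m / 2 + 1) := by
  have h : ((Finset.range (ρ + 1)).sigma fun m => Finset.range (m / 2 + 1)).card =
      ∑ m ∈ Finset.range (ρ + 1), (m / 2 + 1) := by
    rw [Finset.card_sigma]
    simp
  rw [← h]
  apply Finset.card_le_card_of_injOn (fun t => (⟨t.2.1 + t.2.2, t.2.1⟩ : (_ : ℕ) × ℕ))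
  · intro t ht
    have h1 := Finset.mem_filter.1 (Finset.mem_coe.1 ht)
    have h2 := mem_Tr.1 h1.1
    have h3 := h1.2
    simp only [Finset.coe_sigma, Set.mem_sigma_iff, Finset.mem_coe, Finset.mem_range]
    omega
  · rintro ⟨a, b, c⟩ h1 ⟨a', b', c'⟩ h2 h3
    have e1 := mem_Tr.1 (Finset.mem_filter.1 (Finset.mem_coe.1 h1)).1
    have e2 := mem_Tr.1 (Finset.mem_filter.1 (Finset.mem_coe.1 h2)).1
    simp only [Sigma.mk.injEq, heq_eq_eq] at h3 e1 e2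
    simp only [Prod.mk.injEq]
    omega

theorem card_Kx (ρ : ℕ) : ∑ l ∈ Finset.range (ρ / 3 + 1), ((ρ - 3 * l) / 2 + 1) ≤ (Kx ρ).card := by
  have h : ((Finset.range (ρ / 3 + 1)).sigma fun l => Finset.range ((ρ - 3 * l) / 2 + 1)).card =
      ∑ l ∈ Finset.range (ρ / 3 + 1), ((ρ - 3 * l) / 2 + 1) := by
    rw [Finset.card_sigma]
    simp
  rw [← h]
  apply Finset.card_le_card_of_injOn
    (fun t : (_ : ℕ) × ℕ => ((t.1, t.1 + t.2, ρ - 2 * t.1 - t.2) : ℕ × ℕ × ℕ))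
  · rintro ⟨l, d⟩ ht
    simp only [Finset.coe_sigma, Set.mem_sigma_iff, Finset.mem_coe, Finset.mem_range] at ht
    rw [Finset.mem_coe, Kx, Finset.mem_filter, mem_Tr]
    simp only
    omega
  · rintro ⟨l, d⟩ h1 ⟨l', d'⟩ h2 h3
    simp only [Prod.mk.injEq] at h3
    simp only [Sigma.mk.injEq, heq_eq_eq]
    omega

theorem sumA (ρ : ℕ) : ∑ m ∈ Finset.range (ρ + 1), (m / 2 + 1) = (ρ + 2) ^ 2 / 4 := by
  induction ρ with
  | zero => simp
  | succ ρ ih =>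
    rw [Finset.sum_range_succ, ih]
    obtain ⟨k, hk | hk⟩ : ∃ k, ρ = 2 * k ∨ ρ = 2 * k + 1 := ⟨ρ / 2, by omega⟩
    · subst hk
      have e1 : (2 * k + 2) ^ 2 = 4 * (k * k) + 8 * k + 4 := by ring
      have e2 : (2 * k + 1 + 2) ^ 2 = 4 * (k * k) + 12 * k + 9 := by ring
      omega
    · subst hk
      have e1 : (2 * k + 1 + 2) ^ 2 = 4 * (k * k) + 12 * k + 9 := by ring
      have e2 : (2 * k + 1 + 1 + 2) ^ 2 = 4 * (k * k) + 16 * k + 16 := by ring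
      omega

theorem sumK_step (ρ : ℕ) : ∑ l ∈ Finset.range ((ρ + 3) / 3 + 1), ((ρ + 3 - 3 * l) / 2 + 1) =
    ∑ l ∈ Finset.range (ρ / 3 + 1), ((ρ - 3 * l) / 2 + 1) + ((ρ + 3) / 2 + 1) := by
  rw [show (ρ + 3) / 3 + 1 = (ρ / 3 + 1) + 1 by omega, Finset.sum_range_succ']
  congr 1
  apply Finset.sum_congr rfl
  intro l _
  congr 2
  omega

theorem sumK (ρ : ℕ) : ∑ l ∈ Finset.range (ρ / 3 + 1), ((ρ - 3 * l) / 2 + 1) =
    (ρ ^ 2 + 6 * ρ + 12) / 12 := by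
  induction ρ using Nat.strong_induction_on with
  | _ ρ ih =>
    by_cases h : ρ < 3
    · interval_cases ρ <;> decide
    · obtain ⟨n, rfl⟩ : ∃ n, ρ = n + 3 := ⟨ρ - 3, by omega⟩
      rw [sumK_step, ih n (by omega)]
      obtain ⟨q, s, hs, rfl⟩ : ∃ q s, s < 6 ∧ n = 6 * q + s := ⟨n / 6, n % 6, by omega, by omega⟩
      have e1 : (6 * q + s) ^ 2 = 36 * (q * q) + 12 * q * s + s ^ 2 := by ring
      have e2 : (6 * q + s + 3) ^ 2 = 36 * (q * q) + 12 * q * (s + 3) + (s + 3) ^ 2 := by ring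
      rw [e1, e2]
      interval_cases s <;> omega

/-- the number of coordinates minus the number of relations -/
theorem card_le {ρ : ℕ} (hρ : 0 < ρ) :
    (Jx ρ).card ≤ ((2 * ρ) ^ 2 - 1) / 48 + 2 * (Kx ρ).card := by
  have h1 := card_Jx ρ
  have h2 := card_Kx ρ
  rw [sumA] at h1
  rw [sumK] at h2
  obtain ⟨q, s, hs, rfl⟩ : ∃ q s, s < 6 ∧ ρ = 6 * q + s := ⟨ρ / 6, ρ % 6, by omega, by omega⟩
  have e1 : (6 * q + s) ^ 2 = 36 * (q * q) + 12 * q * s + s ^ 2 := by ring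
  have e2 : (6 * q + s + 2) ^ 2 = 36 * (q * q) + 12 * q * (s + 2) + (s + 2) ^ 2 := by ring
  have e3 : (2 * (6 * q + s)) ^ 2 = 144 * (q * q) + 48 * q * s + 4 * s ^ 2 := by ring
  rw [e1] at h2
  rw [e2] at h1
  rw [e3]
  have hq : s = 0 → 0 < q * q := by
    intro h
    have : 0 < q := by omega
    positivity
  interval_cases s <;> omega

end Pool.Agent.V7H62.DM
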