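import Mathlib

/-! # The dual argument: a functional on polynomials in three variables which is invariant under two
finite groups of substitutions vanishes -/

set_option autoImplicit false

namespace Pool.Agent.V7H62.DM

open MvPolynomial

/-- polynomials in three variables -/
abbrev P3 : Type := MvPolynomial (Fin 3) ℚ

/-- the substitution with given values of the variables -/
noncomputable def sb (a b c : P3) : P3 →ₐ[ℚ] P3 := aeval ![a, b, c]

theorem sb0 (a b c : P3) : sb a b c (X 0) = a := by simp [sb]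
theorem sb1 (a b c : P3) : sb a b c (X 1) = b := by simp [sb]
theorem sb2 (a b c : P3) : sb a b c (X 2) = c := by simp [sb]

theorem sb_ext {f g : P3 →ₐ[ℚ] P3} (h0 : f (X 0) = g (X 0)) (h1 : f (X 1) = g (X 1))
    (h2 : f (X 2) = g (X 2)) : f = g := by
  apply MvPolynomial.algHom_ext
  intro i
  fin_cases i
  · exact h0
  · exact h1
  · exact h2

/-- one half -/
noncomputable def hf : P3 := C (1 / 2)

theorem hf_two : hf * 2 = 1 := by
  have : (2 : P3) = C 2 := by rw [map_ofNat]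
  rw [hf, this, ← C_mul]; norm_num

theorem map_C' (f : P3 →ₐ[ℚ] P3) (q : ℚ) : f (C q) = C q := by
  rw [← MvPolynomial.algebraMap_eq]
  exact f.commutes _

theorem map_hf (f : P3 →ₐ[ℚ] P3) : f hf = hf := map_C' f _

/-- the substitution which exchanges the two types of relations -/
noncomputable def sB : P3 →ₐ[ℚ] P3 :=
  sb (hf * X 0) (hf * (X 1 + X 2)) (hf * (X 2 - X 1))
theorem sB0 : sB (X 0) = hf * X 0 := sb0 _ _ _
theorem sB1 : sB (X 1) = hf * (X 1 + X 2) := sb1 _ _ _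
theorem sB2 : sB (X 2) = hf * (X 2 - X 1) := sb2 _ _ _

/-- its inverse -/
noncomputable def sBi : P3 →ₐ[ℚ] P3 := sb (2 * X 0) (X 1 - X 2) (X 1 + X 2)
theorem sBi0 : sBi (X 0) = 2 * X 0 := sb0 _ _ _
theorem sBi1 : sBi (X 1) = X 1 - X 2 := sb1 _ _ _
theorem sBi2 : sBi (X 2) = X 1 + X 2 := sb2 _ _ _

theorem sB_sBi (g : P3) : sB (sBi g) = g := by
  have h : sB.comp sBi = AlgHom.id ℚ P3 := by
    have e := hf_two
    apply sb_ext
    · show sB (sBi (X 0)) = X 0
      rw [sBi0, map_mul, map_ofNat, sB0]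
      linear_combination (X 0) * e
    · show sB (sBi (X 1)) = X 1
      rw [sBi1, map_sub, sB1, sB2]
      linear_combination (X 1) * e
    · show sB (sBi (X 2)) = X 2
      rw [sBi2, map_add, sB1, sB2]
      linear_combination (X 2) * e
  exact congrArg (fun f => f g) h

/-- invariance of a functional under a substitution -/
def Iv (η : P3 →ₗ[ℚ] ℚ) (f : P3 →ₐ[ℚ] P3) : Prop := ∀ g, η (f g) = η g

/-- the sign change of the first variable -/
noncomputable def s0 : P3 →ₐ[ℚ] P3 := sb (- X 0) (X 1) (X 2)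
theorem s00 : s0 (X 0) = - X 0 := sb0 _ _ _
theorem s0_1 : s0 (X 1) = X 1 := sb1 _ _ _
theorem s0_2 : s0 (X 2) = X 2 := sb2 _ _ _
/-- the transposition of the first two variables -/
noncomputable def s01 : P3 →ₐ[ℚ] P3 := sb (X 1) (X 0) (X 2)
theorem s010 : s01 (X 0) = X 1 := sb0 _ _ _
theorem s011 : s01 (X 1) = X 0 := sb1 _ _ _
theorem s012 : s01 (X 2) = X 2 := sb2 _ _ _
/-- the transposition of the last two variables -/
noncomputable def s12 : P3 →ₐ[ℚ] P3 := sb (X 0) (X 2) (X 1)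
theorem s120 : s12 (X 0) = X 0 := sb0 _ _ _
theorem s121 : s12 (X 1) = X 2 := sb1 _ _ _
theorem s122 : s12 (X 2) = X 1 := sb2 _ _ _

/-- the common form -/
noncomputable def fm : P3 := hf * (X 0 + X 1 + X 2)

/-- the unipotent substitutions -/
noncomputable def sT (j : ℚ) : P3 →ₐ[ℚ] P3 := sb (X 0 - C j * fm) (X 1 + C j * fm) (X 2)
theorem sT0 (j : ℚ) : sT j (X 0) = X 0 - C j * fm := sb0 _ _ _
theorem sT1 (j : ℚ) : sT j (X 1) = X 1 + C j * fm := sb1 _ _ _
theorem sT2 (j : ℚ) : sT j (X 2) = X 2 := sb2 _ _ _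

theorem sT_add (i j : ℚ) (g : P3) : sT i (sT j g) = sT (i + j) g := by
  have hfm : sT i fm = fm := by
    rw [fm, map_mul, map_hf, map_add, map_add, sT0, sT1, sT2]
    rw [fm]
    ring
  have h : (sT i).comp (sT j) = sT (i + j) := by
    apply sb_ext
    · show sT i (sT j (X 0)) = sT (i + j) (X 0)
      rw [sT0, sT0, map_sub, map_mul, hfm, map_C', sT0, C_add]
      ring
    · show sT i (sT j (X 1)) = sT (i + j) (X 1)
      rw [sT1, sT1, map_add, map_mul, hfm, map_C', sT1, C_add]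
      ring
    · show sT i (sT j (X 2)) = sT (i + j) (X 2)
      rw [sT2, sT2, sT2]
  exact congrArg (fun f => f g) h

theorem Iv_T {η : P3 →ₗ[ℚ] ℚ} (h0 : Iv η s0) (h1 : Iv η s01)
    (hB : ∀ g, η (sB (s01 g)) = η (sB g)) (j : ℕ) : Iv η (sT j) := by
  have r1 : ∀ g, η (sB (s01 (sBi g))) = η g := by
    intro g
    rw [hB, sB_sBi]
  -- the conjugate by the sign change
  have r2 : ∀ g, η (s0 (sB (s01 (sBi (s0 g))))) = η g := by
    intro g
    rw [h0, r1, h0]
  have r3 : ∀ g, η (s01 (s0 (sB (s01 (sBi (s0 (s01 g))))))) = η g := by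
    intro g
    rw [h1, r2, h1]
  have e := hf_two
  have key : ((s0.comp (sB.comp (s01.comp (sBi.comp s0)))).comp
      (s01.comp (s0.comp (sB.comp (s01.comp (sBi.comp (s0.comp s01))))))) = sT 1 := by
    apply sb_ext
    · simp only [AlgHom.comp_apply, sT0, s010, s011, s012, s00, s0_1, s0_2, sBi0, sBi1, sBi2, sB0,
        sB1, sB2, fm, map_sub, map_add, map_mul, map_neg, map_hf, map_ofNat, C_1, one_mul]
      linear_combination (hf * X 0 + X 0 - hf * (X 1 + X 2)) * e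
    · simp only [AlgHom.comp_apply, sT1, s010, s011, s012, s00, s0_1, s0_2, sBi0, sBi1, sBi2, sB0,
        sB1, sB2, fm, map_sub, map_add, map_mul, map_neg, map_hf, map_ofNat, C_1, one_mul]
      linear_combination (hf * X 0 + X 1 + 3 * hf * X 1 + hf * X 2) * e
    · simp only [AlgHom.comp_apply, sT2, s010, s011, s012, s00, s0_1, s0_2, sBi0, sBi1, sBi2, sB0,
        sB1, sB2, fm, map_sub, map_add, map_mul, map_neg, map_hf, map_ofNat, C_1, one_mul]
      linear_combination ((2 * hf + 1) * X 2) * e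
  have r4 : ∀ g, η (sT 1 g) = η g := by
    intro g
    rw [← key]
    simp only [AlgHom.comp_apply]
    rw [r2, r3]
  induction j with
  | zero =>
    intro g
    have : sT 0 = AlgHom.id ℚ P3 := by
      apply sb_ext
      · rw [sT0]; simp
      · rw [sT1]; simp
      · rw [sT2]; simp
    rw [Nat.cast_zero, this]
    rfl
  | succ j ih =>
    intro g
    rw [Nat.cast_succ, ← sT_add, ih, r4]


/-- the derivative along the unipotent substitutions -/
theorem Iv_deriv {η : P3 →ₗ[ℚ] ℚ} (h : ∀ j : ℕ, Iv η (sT j)) (a b c : ℕ) :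
    (b : ℚ) * η (fm * (X 0 ^ a * X 1 ^ (b - 1) * X 2 ^ c)) =
      (a : ℚ) * η (fm * (X 0 ^ (a - 1) * X 1 ^ b * X 2 ^ c)) := by
  classical
  set G : Polynomial P3 := (Polynomial.C (X 0) - Polynomial.X * Polynomial.C fm) ^ a *
    (Polynomial.C (X 1) + Polynomial.X * Polynomial.C fm) ^ b * Polynomial.C (X 2 ^ c) with hG
  have hev : ∀ j : ℚ, G.eval (C j) = sT j (X 0 ^ a * X 1 ^ b * X 2 ^ c) := by
    intro j
    rw [map_mul, map_mul, map_pow, map_pow, map_pow, sT0, sT1, sT2, hG]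
    simp only [Polynomial.eval_mul, Polynomial.eval_pow, Polynomial.eval_sub, Polynomial.eval_add,
      Polynomial.eval_C, Polynomial.eval_X]
  set q : Polynomial ℚ := ∑ n ∈ G.support, Polynomial.monomial n (η (G.coeff n)) with hq
  have hqe : ∀ j : ℚ, q.eval j = η (G.eval (C j)) := by
    intro j
    rw [hq, Polynomial.eval_finsetSum, Polynomial.eval_eq_sum, Polynomial.sum_def, map_sum]
    refine Finset.sum_congr rfl fun n _ => ?_
    rw [Polynomial.eval_monomial, ← C_pow, mul_comm (G.coeff n), MvPolynomial.C_mul', map_smul,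
      smul_eq_mul, mul_comm]
  have hqc : ∀ n, q.coeff n = η (G.coeff n) := by
    intro n
    rw [hq, Polynomial.finsetSum_coeff]
    simp only [Polynomial.coeff_monomial]
    rw [Finset.sum_ite_eq' G.support n]
    split_ifs with hn
    · rfl
    · rw [Polynomial.notMem_support_iff.1 hn, map_zero]
  have h1 : q - Polynomial.C (η (X 0 ^ a * X 1 ^ b * X 2 ^ c)) = 0 := by
    apply Polynomial.eq_zero_of_infinite_isRoot
    refine Set.Infinite.mono (s := Set.range fun n : ℕ => (n : ℚ)) ?_ ?_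
    · rintro _ ⟨n, rfl⟩
      simp only [Polynomial.IsRoot, Set.mem_ofPred_eq, Polynomial.eval_sub, Polynomial.eval_C]
      rw [hqe, hev, h n, sub_self]
    · exact Set.infinite_range_of_injective Nat.cast_injective
  have h2 : q.coeff 1 = 0 := by
    rw [sub_eq_zero.1 h1, Polynomial.coeff_C]
    simp
  rw [hqc] at h2
  have h3 : G.coeff 1 = (Polynomial.derivative G).eval 0 := by
    rw [← Polynomial.coeff_zero_eq_eval_zero, Polynomial.coeff_derivative]
    simp
  rw [h3, hG] at h2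
  simp only [Polynomial.derivative_mul, Polynomial.derivative_pow, Polynomial.derivative_sub,
    Polynomial.derivative_add, Polynomial.derivative_C, Polynomial.derivative_X,
    Polynomial.eval_add, Polynomial.eval_mul, Polynomial.eval_sub, Polynomial.eval_pow,
    Polynomial.eval_C, Polynomial.eval_X, zero_mul, mul_zero, sub_zero, add_zero, zero_sub,
    one_mul, zero_add, map_pow] at h2
  have h4 : ((a : P3) * X 0 ^ (a - 1) * Polynomial.eval 0 (-Polynomial.C fm) * X 1 ^ b +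
      X 0 ^ a * ((b : P3) * X 1 ^ (b - 1) * fm)) * X 2 ^ c =
      (b : ℚ) • (fm * (X 0 ^ a * X 1 ^ (b - 1) * X 2 ^ c)) -
      (a : ℚ) • (fm * (X 0 ^ (a - 1) * X 1 ^ b * X 2 ^ c)) := by
    rw [Polynomial.eval_neg, Polynomial.eval_C, smul_eq_C_mul, smul_eq_C_mul, map_natCast,
      map_natCast]
    ring
  rw [h4, map_sub, map_smul, map_smul, smul_eq_mul, smul_eq_mul] at h2
  linarith

theorem map3 (f : P3 →ₐ[ℚ] P3) (a b c : ℕ) :
    f (X 0 ^ a * X 1 ^ b * X 2 ^ c) = f (X 0) ^ a * f (X 1) ^ b * f (X 2) ^ c := by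
  rw [map_mul, map_mul, map_pow, map_pow, map_pow]

theorem eta_fm (η : P3 →ₗ[ℚ] ℚ) (a b c : ℕ) : η (fm * (X 0 ^ a * X 1 ^ b * X 2 ^ c)) =
    1 / 2 * (η (X 0 ^ (a + 1) * X 1 ^ b * X 2 ^ c) + η (X 0 ^ a * X 1 ^ (b + 1) * X 2 ^ c) +
      η (X 0 ^ a * X 1 ^ b * X 2 ^ (c + 1))) := by
  have h : fm * (X 0 ^ a * X 1 ^ b * X 2 ^ c) = (1 / 2 : ℚ) • (X 0 ^ (a + 1) * X 1 ^ b * X 2 ^ c +
      X 0 ^ a * X 1 ^ (b + 1) * X 2 ^ c + X 0 ^ a * X 1 ^ b * X 2 ^ (c + 1)) := by
    rw [smul_eq_C_mul, fm, hf]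
    ring
  rw [h, map_smul, map_add, map_add, smul_eq_mul]

/-- **The dual argument.** -/
theorem dual_zero {η : P3 →ₗ[ℚ] ℚ} (h0 : Iv η s0) (h1 : Iv η s01) (h2 : Iv η s12)
    (hB : ∀ g, η (sB (s01 g)) = η (sB g)) (a b c : ℕ) (hp : 0 < a + b + c) :
    η (X 0 ^ a * X 1 ^ b * X 2 ^ c) = 0 := by
  have hT := fun j : ℕ => Iv_T h0 h1 hB j
  have y1 : ∀ a b c : ℕ, η (X 0 ^ a * X 1 ^ b * X 2 ^ c) = η (X 0 ^ b * X 1 ^ a * X 2 ^ c) := by
    intro a b c
    rw [← h1, map3, s010, s011, s012]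
    congr 1
    ring
  have y2 : ∀ a b c : ℕ, η (X 0 ^ a * X 1 ^ b * X 2 ^ c) = η (X 0 ^ a * X 1 ^ c * X 2 ^ b) := by
    intro a b c
    rw [← h2, map3, s120, s121, s122]
    congr 1
    ring
  have o0 : ∀ a b c : ℕ, Odd a → η (X 0 ^ a * X 1 ^ b * X 2 ^ c) = 0 := by
    intro a b c ha
    have := h0 (X 0 ^ a * X 1 ^ b * X 2 ^ c)
    rw [map3, s00, s0_1, s0_2, ha.neg_pow, neg_mul, neg_mul, map_neg] at this
    linarith
  have o1 : ∀ a b c : ℕ, Odd b → η (X 0 ^ a * X 1 ^ b * X 2 ^ c) = 0 := by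
    intro a b c hb
    rw [y1, o0 _ _ _ hb]
  have o2 : ∀ a b c : ℕ, Odd c → η (X 0 ^ a * X 1 ^ b * X 2 ^ c) = 0 := by
    intro a b c hc
    rw [y2, o1 _ _ _ hc]
  have ne1 : ∀ a b c : ℕ, Even a → Even b → a ≠ b → η (X 0 ^ a * X 1 ^ b * X 2 ^ c) = 0 := by
    intro a b c ha hb hab
    have key := Iv_deriv hT a b c
    have e1 : (b : ℚ) * η (fm * (X 0 ^ a * X 1 ^ (b - 1) * X 2 ^ c)) =
        b * (1 / 2 * η (X 0 ^ a * X 1 ^ b * X 2 ^ c)) := by
      rcases Nat.eq_zero_or_pos b with rfl | hb'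
      · simp
      · have hb1 : Odd (b - 1) := by
          obtain ⟨k, hk⟩ := hb
          exact ⟨k - 1, by omega⟩
        rw [eta_fm, o1 _ _ _ hb1, o1 _ _ _ hb1, Nat.sub_add_cancel hb', zero_add, add_zero]
    have e2 : (a : ℚ) * η (fm * (X 0 ^ (a - 1) * X 1 ^ b * X 2 ^ c)) =
        a * (1 / 2 * η (X 0 ^ a * X 1 ^ b * X 2 ^ c)) := by
      rcases Nat.eq_zero_or_pos a with rfl | ha'
      · simp
      · have ha1 : Odd (a - 1) := by
          obtain ⟨k, hk⟩ := ha
          exact ⟨k - 1, by omega⟩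
        rw [eta_fm, o0 _ _ _ ha1, o0 _ _ _ ha1, Nat.sub_add_cancel ha', add_zero, add_zero]
    rw [e1, e2] at key
    have h3 : ((b : ℚ) - a) * η (X 0 ^ a * X 1 ^ b * X 2 ^ c) = 0 := by linarith
    rcases mul_eq_zero.1 h3 with h4 | h4
    · exfalso
      apply hab
      have : (b : ℚ) = a := by linarith
      exact_mod_cast this.symm
    · exact h4
  rcases Nat.even_or_odd a with ha | ha
  swap
  · exact o0 _ _ _ ha
  rcases Nat.even_or_odd b with hb | hb
  swap
  · exact o1 _ _ _ hb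
  rcases Nat.even_or_odd c with hc | hc
  swap
  · exact o2 _ _ _ hc
  by_cases hab : a = b
  swap
  · exact ne1 _ _ _ ha hb hab
  by_cases hac : a = c
  swap
  · rw [y2]
    exact ne1 _ _ _ ha hc hac
  subst hab
  subst hac
  obtain ⟨e, rfl⟩ : ∃ e, a = e + 2 := by
    obtain ⟨k, hk⟩ := ha
    exact ⟨a - 2, by omega⟩
  have key := Iv_deriv hT (e + 1) (e + 3) (e + 2)
  have he1 : Odd (e + 1) := by
    obtain ⟨k, hk⟩ := ha
    exact ⟨k - 1, by omega⟩
  have he3 : Odd (e + 3) := by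
    obtain ⟨k, hk⟩ := ha
    exact ⟨k, by omega⟩
  rw [show e + 3 - 1 = e + 2 by omega, show e + 1 - 1 = e by omega, eta_fm, eta_fm,
    show e + 1 + 1 = e + 2 by omega, show e + 2 + 1 = e + 3 by omega,
    show e + 3 + 1 = e + 4 by omega, o0 (e + 1) (e + 3) (e + 2) he1, o0 (e + 1) (e + 2) (e + 3) he1,
    o1 e (e + 3) (e + 3) he3, ne1 e (e + 4) (e + 2) (by
      obtain ⟨k, hk⟩ := ha
      exact ⟨k - 1, by omega⟩) (by
      obtain ⟨k, hk⟩ := ha
      exact ⟨k + 1, by omega⟩) (by omega)] at key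
  have h5 : ((e + 3 : ℕ) : ℚ) * (1 / 2 * η (X 0 ^ (e + 2) * X 1 ^ (e + 2) * X 2 ^ (e + 2))) = 0 := by
    rw [add_zero, add_zero, add_zero, add_zero, mul_zero, mul_zero] at key
    exact key
  have h6 : ((e + 3 : ℕ) : ℚ) ≠ 0 := by positivity
  rcases mul_eq_zero.1 h5 with h7 | h7
  · exact absurd h7 h6
  · linarith

end Pool.Agent.V7H62.DM
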