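import Pool.Agent.V7H62.DM.Poly

/-! # Odd weight: no part with exactly four letters `x₀` at the bottom -/

set_option autoImplicit false

namespace Pool.Agent.V7H62.DM

open Pool.Agent.H777R4.DM Pool.Agent.H352.DSH
open Pool.Agent.R241.DL (blk blk_rot blk_rev' blk_one)

theorem runs_length (u : List (Fin 2)) : (runs u).length = u.count 0 + 1 := by
  induction u with
  | nil => rfl
  | cons i u ih =>
    rw [runs]
    cases h : runs u with
    | nil => exact absurd h (runs_ne u)
    | cons a l =>
      rw [h] at ih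
      by_cases hi : i = 1
      · rw [if_pos hi, hi]
        simpa using ih
      · have h0 : i = 0 := by omega
        rw [if_neg hi, h0]
        simpa using ih

/-- antisymmetry of the coefficients gives antisymmetry of the values -/
theorem alt_of {n : ℕ} (hn : n ≠ 0) {P : A} (σ : Equiv.Perm (Fin n))
    (h : ∀ a : Fin n → ℕ, co P (blk (List.ofFn (a ∘ σ))) = - co P (blk (List.ofFn a)))
    (y : Fin n → ℚ) : F P (List.ofFn (y ∘ σ)) = - F P (List.ofFn y) := by
  obtain ⟨p, h1, h2⟩ := poly_exists n hn P
  have h3 : MvPolynomial.rename σ p = - p := by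
    ext a
    have h4 : a = (Finsupp.equivFunOnFinite.symm (a ∘ σ)).mapDomain σ := by
      ext i
      obtain ⟨j, rfl⟩ := σ.surjective i
      rw [Finsupp.mapDomain_apply σ.injective]
      rfl
    rw [MvPolynomial.coeff_neg, h2]
    conv_lhs => rw [h4]
    rw [MvPolynomial.coeff_rename_mapDomain _ σ.injective, h2]
    exact h a
  rw [← h1, ← h1]
  have h5 := congrArg (MvPolynomial.eval y) h3
  rw [MvPolynomial.eval_rename, map_neg] at h5
  exact h5

/-- a periodic polynomial function is constant -/
theorem per_const (p : Polynomial ℚ) (δ : ℚ) (hδ : δ ≠ 0) (h : ∀ a, p.eval a = p.eval (a + δ))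
    (a b : ℚ) : p.eval a = p.eval b := by
  have h1 : ∀ n : ℕ, p.eval (a + n * δ) = p.eval a := by
    intro n
    induction n with
    | zero => simp
    | succ n ih =>
      rw [← ih, h (a + n * δ)]
      congr 1
      push_cast
      ring
  have h2 : p - Polynomial.C (p.eval a) = 0 := by
    apply Polynomial.eq_zero_of_infinite_isRoot
    refine Set.Infinite.mono (s := Set.range fun n : ℕ => a + n * δ) ?_ ?_
    · rintro _ ⟨n, rfl⟩
      simp [Polynomial.IsRoot, h1]
    · apply Set.infinite_range_of_injective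
      intro m n hmn
      have h3 : (m : ℚ) * δ = n * δ := by simpa using hmn
      exact_mod_cast mul_right_cancel₀ hδ h3
  have h3 := congrArg (Polynomial.eval b) h2
  simp at h3
  linarith

section
variable {ψ : A} {N : ℕ}

theorem list5 (a b c d e : ℚ) : [a, b, c, d, e] = List.ofFn ![a, b, c, d, e] := by
  simp [List.ofFn_succ]

theorem four_zero (h : IsDM ψ) (hN : LenHom ψ N) (hm : ∀ u, co ψ u ≠ 0 → 4 ≤ u.count 0)
    (hO : Odd N) (a b c d e : ℚ) : F ψ [a, b, c, d, e] = 0 := by
  have hs : (-1 : ℚ) ^ (N + 1) = 1 := hO.add_one.neg_one_pow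
  -- the coefficients
  have Rv : ∀ z p q r s : ℕ, co ψ (blk [z, s, r, q, p]) = co ψ (blk [z, p, q, r, s]) := by
    intro z p q r s
    have := blk_rev' h hN hm (by norm_num) z [p, q, r, s] rfl
    rw [hs, one_mul] at this
    simpa using this
  have I : ∀ z x p q r : ℕ, co ψ (blk [z, x, p, q, r]) + (co ψ (blk [z, p, x, q, r]) +
      (co ψ (blk [z, p, q, x, r]) + co ψ (blk [z, p, q, r, x]))) = 0 := by
    intro z x p q r
    exact blk_one h hN hm (by norm_num) z x [p, q, r] rfl
  have ro : ∀ a b c d e : ℕ, co ψ (blk [b, c, d, e, a]) = co ψ (blk [a, b, c, d, e]) := by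
    intro a b c d e
    exact blk_rot h hN hm (by norm_num) 1 [a, b, c, d, e] rfl
  have c12 : ∀ a b c d e : ℕ, co ψ (blk [a, c, b, d, e]) = - co ψ (blk [a, b, c, d, e]) := by
    intro a b c d e
    linear_combination (1 / 2 : ℚ) * (I a c b d e - I a e b d c + I a b c d e) -
      (1 / 2 : ℚ) * (Rv a e b d c) - (1 / 2 : ℚ) * (Rv a b e d c)
  have c01 : ∀ a b c d e : ℕ, co ψ (blk [b, a, c, d, e]) = - co ψ (blk [a, b, c, d, e]) := by
    intro a b c d e
    rw [← ro b a c d e, ← ro a c d e b, ← ro c d e b a, ← ro d e b a c, c12 e a b c d,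
      ← ro e a b c d]
  have c23 : ∀ a b c d e : ℕ, co ψ (blk [a, b, d, c, e]) = - co ψ (blk [a, b, c, d, e]) := by
    intro a b c d e
    rw [← ro a b d c e, c12 b c d e a, ro a b c d e]
  have c34 : ∀ a b c d e : ℕ, co ψ (blk [a, b, c, e, d]) = - co ψ (blk [a, b, c, d, e]) := by
    intro a b c d e
    rw [← ro a b c e d, c23 b c d e a, ro a b c d e]
  -- the values
  have v01 : ∀ a b c d e : ℚ, F ψ [b, a, c, d, e] = - F ψ [a, b, c, d, e] := by
    intro a b c d e
    rw [list5, list5, ← alt_of (by norm_num) (Equiv.swap (0 : Fin 5) 1) ?_ ![a, b, c, d, e]]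
    · congr 2
      funext i
      fin_cases i <;> rfl
    · intro x
      have := c01 (x 0) (x 1) (x 2) (x 3) (x 4)
      simpa [List.ofFn_succ, Equiv.swap_apply_def] using this
  have v12 : ∀ a b c d e : ℚ, F ψ [a, c, b, d, e] = - F ψ [a, b, c, d, e] := by
    intro a b c d e
    rw [list5, list5, ← alt_of (by norm_num) (Equiv.swap (1 : Fin 5) 2) ?_ ![a, b, c, d, e]]
    · congr 2
      funext i
      fin_cases i <;> rfl
    · intro x
      have := c12 (x 0) (x 1) (x 2) (x 3) (x 4)
      simpa [List.ofFn_succ, Equiv.swap_apply_def] using this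
  have v23 : ∀ a b c d e : ℚ, F ψ [a, b, d, c, e] = - F ψ [a, b, c, d, e] := by
    intro a b c d e
    rw [list5, list5, ← alt_of (by norm_num) (Equiv.swap (2 : Fin 5) 3) ?_ ![a, b, c, d, e]]
    · congr 2
      funext i
      fin_cases i <;> rfl
    · intro x
      have := c23 (x 0) (x 1) (x 2) (x 3) (x 4)
      simpa [List.ofFn_succ, Equiv.swap_apply_def] using this
  have v34 : ∀ a b c d e : ℚ, F ψ [a, b, c, e, d] = - F ψ [a, b, c, d, e] := by
    intro a b c d e
    rw [list5, list5, ← alt_of (by norm_num) (Equiv.swap (3 : Fin 5) 4) ?_ ![a, b, c, d, e]]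
    · congr 2
      funext i
      fin_cases i <;> rfl
    · intro x
      have := c34 (x 0) (x 1) (x 2) (x 3) (x 4)
      simpa [List.ofFn_succ, Equiv.swap_apply_def] using this
  -- the cut relations
  have L : ∀ p x y z t : ℚ, F ψ [p, p + t, x + t, y + t, z + t] + F ψ [p, x, x + t, y + t, z + t] +
      F ψ [p, x, y, y + t, z + t] + F ψ [p, x, y, z, z + t] = 0 := by
    intro p x y z t
    have := cut_lie h.mem t [p, x, y, z] (by simp)
    simp only [cut, List.map_cons, List.map_nil] at this
    linarith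
  -- the parallelogram relation
  have P0 : ∀ p a b c q : ℚ, F ψ [p, a, b, b + c - a, q] + F ψ [p, a, c, b + c - a, q] +
      F ψ [p, b, c, b + c - a, q] + F ψ [p, a, b, c, q] = 0 := by
    intro p a b c q
    have l1 := L p a c (q - (b - a)) (b - a)
    have l2 := L p c a (q - (b - a)) (b - a)
    have e1 : a + (b - a) = b := by ring
    have e2 : c + (b - a) = b + c - a := by ring
    have e3 : q - (b - a) + (b - a) = q := by ring
    rw [e1, e2, e3] at l1
    rw [e1, e2, e3] at l2
    have s1 := v23 p (p + (b - a)) b (b + c - a) q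
    have s2 := v12 p a c (q - (b - a)) q
    have s3 := v23 p c b (b + c - a) q
    have s4 := v12 p b c (b + c - a) q
    have s5 := v12 p a c b q
    have s6 := v23 p a b c q
    linarith
  have P1 : ∀ p a b c q : ℚ, F ψ [p, b, c, b + c - a, q] = - F ψ [p, a, b, c, q] := by
    intro p a b c q
    have l1 := P0 p a b c q
    have l2 := P0 p a c b q
    rw [show c + b - a = b + c - a by ring] at l2
    have s1 := v12 p b c (b + c - a) q
    have s2 := v23 p a b c q
    linarith
  -- periodicity
  have P2 : ∀ p a b c q : ℚ, F ψ [p, a, b, c, q] = - F ψ [p, b + c - a, b, c, q] := by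
    intro p a b c q
    have l1 := P1 p a b c q
    have s1 := v23 p b (b + c - a) c q
    have s2 := v12 p (b + c - a) b c q
    linarith
  have P3 : ∀ p a b c q : ℚ, F ψ [p, a, b, c, q] = F ψ [p, a + (q - c), b, c, q] := by
    intro p a b c q
    have l1 := P2 p (b + c - a) b q c
    have l2 := P2 p a b c q
    rw [show b + q - (b + c - a) = a + (q - c) by ring] at l1
    have s1 := v34 p (b + c - a) b c q
    have s2 := v34 p (a + (q - c)) b c q
    linarith
  obtain ⟨P, hP, -⟩ := poly_exists 5 (by norm_num) ψ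
  set p1 : Polynomial ℚ := MvPolynomial.aeval (fun i : Fin 5 => if i = 1 then Polynomial.X else
    Polynomial.C ((![a, b, c, d, e] : Fin 5 → ℚ) i)) P with hp1
  have hev : ∀ x : ℚ, p1.eval x = F ψ [a, x, c, d, e] := by
    intro x
    rw [list5, ← hP, hp1]
    show (Polynomial.aeval (R := ℚ) x) _ = _
    rw [MvPolynomial.comp_aeval_apply, MvPolynomial.aeval_eq_eval]
    congr 2
    funext i
    fin_cases i <;> simp
  by_cases hde : e = d
  · have := v34 a b c d e
    rw [hde] at this ⊢
    linarith
  · have h1 := per_const p1 (e - d) (sub_ne_zero.2 hde) (fun x => by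
      rw [hev, hev]
      exact P3 a x c d e) b a
    rw [hev, hev] at h1
    rw [h1]
    have := v01 a a c d e
    linarith

/-- **Odd weight: the part with exactly four letters `x₀` vanishes.** -/
theorem four_odd (h : IsDM ψ) (hN : LenHom ψ N) (hm : ∀ u, co ψ u ≠ 0 → 4 ≤ u.count 0)
    (hO : Odd N) (u : List (Fin 2)) (hu : u.count 0 = 4) : co ψ u = 0 := by
  obtain ⟨P, h1, h2⟩ := poly_exists 5 (by norm_num) ψ
  have h3 : P = 0 := by
    apply MvPolynomial.funext
    intro y
    have e : y = ![y 0, y 1, y 2, y 3, y 4] := by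
      funext i
      fin_cases i <;> rfl
    rw [h1, map_zero, e, ← list5]
    exact four_zero h hN hm hO _ _ _ _ _
  have hl : (runs u).length = 5 := by rw [runs_length, hu]
  obtain ⟨a0, ha0⟩ : ∃ a0 : Fin 5 → ℕ, runs u = List.ofFn a0 := by
    rw [← hl]
    exact ⟨(runs u).get, (List.ofFn_get _).symm⟩
  have h4 := h2 (Finsupp.equivFunOnFinite.symm a0)
  rw [h3, MvPolynomial.coeff_zero] at h4
  rw [← blk_runs u, ha0]
  exact h4.symm

end

end Pool.Agent.V7H62.DM
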