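import Pool.Agent.V7H62.DM.Rep
import Pool.Agent.R241.DL6

/-! # The values of a polynomial at lists of points form a commutative polynomial -/

set_option autoImplicit false

namespace Pool.Agent.V7H62.DM

open Pool.Agent.H777R4.DM Pool.Agent.H352.DSH
open Pool.Agent.R241.DL (blk)

/-- the runs of `x₁` in a word -/
def runs : List (Fin 2) → List ℕ
  | [] => [0]
  | i :: u => if i = 1 then (match runs u with
      | [] => []
      | a :: l => (a + 1) :: l) else 0 :: runs u

theorem runs_ne (u : List (Fin 2)) : runs u ≠ [] := by
  induction u with
  | nil => simp [runs]
  | cons i u ih =>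
    rw [runs]
    split_ifs
    · cases h : runs u with
      | nil => exact absurd h ih
      | cons a l => simp
    · simp

theorem blk_runs (u : List (Fin 2)) : blk (runs u) = u := by
  induction u with
  | nil => rfl
  | cons i u ih =>
    rw [runs]
    cases h : runs u with
    | nil => exact absurd h (runs_ne u)
    | cons a l =>
      rw [h] at ih
      by_cases hi : i = 1
      · rw [if_pos hi]
        show blk ((a + 1) :: l) = i :: u
        rw [hi, ← ih]
        cases l with
        | nil => rfl
        | cons b l => rfl
      · rw [if_neg hi]
        have h0 : i = 0 := by omega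
        rw [h0, ← ih]
        rfl

theorem runs_blk (L : List ℕ) : L ≠ [] → runs (blk L) = L := by
  induction L with
  | nil => intro h; exact absurd rfl h
  | cons a L ih =>
    intro _
    have key : ∀ (a b : ℕ) (u : List (Fin 2)) (l : List ℕ), runs u = b :: l →
        runs (List.replicate a 1 ++ u) = (b + a) :: l := by
      intro a
      induction a with
      | zero => intro b u l h; simpa using h
      | succ a ih =>
        intro b u l h
        rw [List.replicate_succ, List.cons_append, runs, if_pos rfl, ih b u l h]
        rfl
    cases L with
    | nil =>
      have := key a 0 [] [] rfl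
      rw [List.append_nil, zero_add] at this
      exact this
    | cons b L =>
      have h1 := ih (by simp)
      have h2 : runs (0 :: blk (b :: L)) = 0 :: (b :: L) := by
        rw [runs, if_neg (by decide), h1]
      have := key a 0 _ _ h2
      rw [zero_add] at this
      exact this

/-- the product of the powers -/
def pp : List ℕ → List ℚ → ℚ
  | [], _ => 1
  | _, [] => 1
  | a :: l, y :: ys => y ^ a * pp l ys

theorem ev_eq (u : List (Fin 2)) : ∀ l : List ℚ,
    ev u l = if (runs u).length = l.length then pp (runs u) l else 0 := by
  induction u with
  | nil =>
    intro l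
    match l with
    | [] => simp [ev, runs]
    | [y] => simp [ev, runs, pp]
    | _ :: _ :: _ => simp [ev, runs]
  | cons i u ih =>
    intro l
    cases l with
    | nil =>
      have h := runs_ne (i :: u)
      rw [if_neg (by simpa using h)]
      rfl
    | cons y ys =>
      rw [ev, runs]
      cases h : runs u with
      | nil => exact absurd h (runs_ne u)
      | cons a l =>
        by_cases hi : i = 1
        · rw [if_pos hi, if_pos hi, ih, h]
          simp only [List.length_cons]
          split_ifs
          · simp only [pp]; ring
          · ring
        · rw [if_neg hi, if_neg hi, ih, h]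
          simp only [List.length_cons, pp]
          by_cases h1 : l.length + 1 = ys.length
          · rw [if_pos h1, if_pos (by omega)]
            ring
          · rw [if_neg h1, if_neg (by omega)]

theorem pp_ofFn (n : ℕ) : ∀ (a : Fin n → ℕ) (y : Fin n → ℚ),
    pp (List.ofFn a) (List.ofFn y) = ∏ i, y i ^ a i := by
  induction n with
  | zero => intro a y; simp [pp]
  | succ n ih =>
    intro a y
    rw [List.ofFn_succ, List.ofFn_succ, pp, ih, Fin.prod_univ_succ]

/-- **The values are those of a commutative polynomial.** -/
theorem poly_exists (n : ℕ) (hn : n ≠ 0) (P : A) : ∃ p : MvPolynomial (Fin n) ℚ,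
    (∀ y : Fin n → ℚ, MvPolynomial.eval y p = F P (List.ofFn y)) ∧
    ∀ a : Fin n →₀ ℕ, p.coeff a = co P (blk (List.ofFn a)) := by
  classical
  induction P using ind_words with
  | h0 =>
    refine ⟨0, fun y => ?_, fun a => ?_⟩
    · rw [map_zero, F_zero]
    · rw [MvPolynomial.coeff_zero]; rfl
  | hadd P Q h1 h2 =>
    obtain ⟨p, h1, h3⟩ := h1
    obtain ⟨q, h2, h4⟩ := h2
    refine ⟨p + q, fun y => ?_, fun a => ?_⟩
    · rw [map_add, F_add, h1, h2]
    · rw [MvPolynomial.coeff_add, h3, h4]; rfl
  | hs c u =>
    by_cases hl : (runs u).length = n
    · obtain ⟨a0, ha0⟩ : ∃ a0 : Fin n → ℕ, runs u = List.ofFn a0 := by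
        subst hl
        exact ⟨(runs u).get, (List.ofFn_get _).symm⟩
      refine ⟨MvPolynomial.monomial (Finsupp.equivFunOnFinite.symm a0) c, fun y => ?_, fun a => ?_⟩
      · rw [MvPolynomial.eval_monomial, F_smul, F_wd, ev_eq, if_pos (by simp [hl]), ha0, pp_ofFn,
          Finsupp.prod_fintype _ _ (by simp)]
        rfl
      · rw [MvPolynomial.coeff_monomial]
        have e1 : co (c • wd u : A) (blk (List.ofFn a)) = c * co (wd u) (blk (List.ofFn a)) := rfl
        rw [e1, H777R4.DM.co_wd]
        have e2 : (Finsupp.equivFunOnFinite.symm a0 = a) ↔ u = blk (List.ofFn a) := by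
          constructor
          · rintro rfl
            rw [← blk_runs u, ha0]
            rfl
          · intro h
            have hne : List.ofFn a ≠ [] := by
              intro h'
              apply hn
              have := congrArg List.length h'
              simpa using this
            have h2 := runs_blk _ hne
            rw [← h, ha0] at h2
            ext i
            have h3 := List.ofFn_injective h2
            simp [h3]
        by_cases h : u = blk (List.ofFn a)
        · rw [if_pos (e2.2 h), if_pos h, mul_one]
        · rw [if_neg (fun h' => h (e2.1 h')), if_neg h, mul_zero]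
    · refine ⟨0, fun y => ?_, fun a => ?_⟩
      · rw [map_zero, F_smul, F_wd, ev_eq, if_neg (by simpa using hl), mul_zero]
      · have e1 : co (c • wd u : A) (blk (List.ofFn a)) = c * co (wd u) (blk (List.ofFn a)) := rfl
        rw [MvPolynomial.coeff_zero, e1, H777R4.DM.co_wd, if_neg, mul_zero]
        intro h
        apply hl
        have hne : List.ofFn a ≠ [] := by
          intro h'
          apply hn
          have := congrArg List.length h'
          simpa using this
        rw [h, runs_blk _ hne]
        simp

end Pool.Agent.V7H62.DM
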