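import Pool.Agent.V7H62.DM.Sol
import Pool.Agent.Y759.DS.Quot

/-! # Dimensions of quotients -/

set_option autoImplicit false

namespace Pool.Agent.V7H62.DM

open Pool.Agent.H777R4.DM Pool.Agent.H352.DSH
open Pool.Agent.R241.DL (blk blk_rot blk_rev' blk_one)

theorem chain {E : Type} [AddCommGroup E] [Module ℚ E] {V U W : Submodule ℚ E} (h1 : U ≤ V)
    (h2 : W ≤ U) (f1 : Module.Finite ℚ (V ⧸ U.submoduleOf V))
    (f2 : Module.Finite ℚ (U ⧸ W.submoduleOf U)) :
    Module.Finite ℚ (V ⧸ W.submoduleOf V) ∧ Module.finrank ℚ (V ⧸ W.submoduleOf V) ≤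
      Module.finrank ℚ (V ⧸ U.submoduleOf V) + Module.finrank ℚ (U ⧸ W.submoduleOf U) := by
  have hle : W.submoduleOf V ≤ U.submoduleOf V := fun v hv => h2 hv
  set g : (V ⧸ W.submoduleOf V) →ₗ[ℚ] (V ⧸ U.submoduleOf V) := Submodule.factor hle with hg
  have hgs : Function.Surjective g := Submodule.factor_surjective hle
  have hj : W.submoduleOf U ≤ (W.submoduleOf V).comap (Submodule.inclusion h1) := fun v hv => hv
  set j : (U ⧸ W.submoduleOf U) →ₗ[ℚ] (V ⧸ W.submoduleOf V) :=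
    Submodule.mapQ _ _ (Submodule.inclusion h1) hj with hjd
  have hker : LinearMap.ker g ≤ LinearMap.range j := by
    intro q hq
    obtain ⟨v, rfl⟩ := Submodule.Quotient.mk_surjective _ q
    have h3 : (Submodule.Quotient.mk v : V ⧸ U.submoduleOf V) = 0 := hq
    rw [Submodule.Quotient.mk_eq_zero] at h3
    exact ⟨Submodule.Quotient.mk ⟨v.1, h3⟩, rfl⟩
  have f3 : Module.Finite ℚ (LinearMap.ker g) := Submodule.finiteDimensional_of_le hker
  have f4 : Module.Finite ℚ ((V ⧸ W.submoduleOf V) ⧸ LinearMap.ker g) :=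
    Module.Finite.equiv (g.quotKerEquivOfSurjective hgs).symm
  have f5 : Module.Finite ℚ (V ⧸ W.submoduleOf V) := Module.Finite.of_submodule_quotient (LinearMap.ker g)
  refine ⟨f5, ?_⟩
  have h4 := LinearMap.finrank_range_add_finrank_ker g
  rw [LinearMap.range_eq_top.2 hgs, finrank_top] at h4
  have h5 := Submodule.finrank_mono hker
  have h6 := LinearMap.finrank_range_le j
  omega

theorem quot_of {V U : Submodule ℚ A} {ρ : ℕ} (h : ∀ ψ ∈ V, fvL ψ ∈ Sp ρ)
    (h' : ∀ ψ ∈ V, fvL ψ = 0 → ψ ∈ U) :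
    Module.Finite ℚ (V ⧸ U.submoduleOf V) ∧
      Module.finrank ℚ (V ⧸ U.submoduleOf V) ≤ Module.finrank ℚ (Sp ρ) := by
  have f0 := Sp_finite ρ
  set T : V →ₗ[ℚ] Sp ρ := (fvL.comp V.subtype).codRestrict (Sp ρ) fun ψ => h ψ.1 ψ.2 with hT0
  have hT : LinearMap.ker T ≤ U.submoduleOf V := by
    intro ψ hψ
    refine h' ψ.1 ψ.2 ?_
    exact congrArg Subtype.val (LinearMap.mem_ker.1 hψ)
  have e := T.quotKerEquivRange
  have f1 : Module.Finite ℚ (V ⧸ LinearMap.ker T) := Module.Finite.equiv e.symm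
  have hs := Submodule.factor_surjective hT
  refine ⟨Module.Finite.of_surjective _ hs, ?_⟩
  refine (LinearMap.finrank_le_finrank_of_surjective hs).trans ?_
  rw [e.finrank_eq]
  exact Submodule.finrank_le _

/-- weight at most three -/
theorem three_small {ψ : A} {N : ℕ} (h : IsDM ψ) (hN : LenHom ψ N)
    (hm : ∀ u, co ψ u ≠ 0 → 3 ≤ u.count 0) (h3 : N ≤ 3) (u : List (Fin 2)) : co ψ u = 0 := by
  by_contra hu
  have h1 := hN u hu
  have h2 := hm u hu
  have h4 : u.count 0 ≤ u.length := List.count_le_length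
  have h5 : u.length = 3 := by omega
  have h6 : u = [0, 0, 0] := by
    have h7 : u.count 0 = u.length := by omega
    rw [List.count_eq_length] at h7
    match u, h5, h7 with
    | [a, b, c], _, h7 =>
      simp only [List.mem_cons, List.not_mem_nil, or_false, forall_eq_or_imp, forall_eq] at h7
      obtain ⟨rfl, rfl, rfl⟩ := h7
      rfl
  have h8 : co ψ (blk [0, 0, 0, 0]) + (co ψ (blk [0, 0, 0, 0]) + co ψ (blk [0, 0, 0, 0])) = 0 :=
    blk_one h hN hm (by norm_num) 0 0 [0, 0] rfl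
  have h9 : blk [0, 0, 0, 0] = u := by rw [h6]; rfl
  rw [h9] at h8
  apply hu
  linarith

end Pool.Agent.V7H62.DM
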