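import Pool.Agent.V7H62.DM.Weight

/-! # The dimension of the space of solutions -/

set_option autoImplicit false

namespace Pool.Agent.V7H62.DM

open MvPolynomial

/-- exchange of the last two entries -/
def sw (t : ℕ × ℕ × ℕ) : ℕ × ℕ × ℕ := (t.1, t.2.2, t.2.1)

/-- the monomials with even exponents -/
noncomputable def mn (t : ℕ × ℕ × ℕ) : P3 := X 0 ^ (2 * t.1) * X 1 ^ (2 * t.2.1) * X 2 ^ (2 * t.2.2)

theorem s12_mn (t : ℕ × ℕ × ℕ) : s12 (mn t) = mn (sw t) := by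
  rw [mn, map3, s120, s121, s122, mn, sw]
  ring

theorem sw_sw (t : ℕ × ℕ × ℕ) : sw (sw t) = t := rfl

/-- the symmetric polynomials with given coefficients -/
noncomputable def mk (ρ : ℕ) : (↥(Jx ρ) → ℚ) →ₗ[ℚ] P3 :=
  Fintype.linearCombination ℚ fun s => mn s.1 + mn (sw s.1)

/-- the two families of relations -/
noncomputable def Mm (ρ : ℕ) : (↥(Jx ρ) → ℚ) →ₗ[ℚ] (↥(Kx ρ) → ℚ) × (↥(Kx ρ) → ℚ) :=
  LinearMap.prod ((Rl ρ).comp (mk ρ)) ((Rl ρ).comp (sB.toLinearMap.comp (mk ρ)))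

theorem mk_single (ρ : ℕ) (s : ↥(Jx ρ)) : mk ρ (Pi.single s 1) = mn s.1 + mn (sw s.1) := by
  classical
  rw [mk, Fintype.linearCombination_apply_single, one_smul]

theorem Rl_mn {ρ : ℕ} (κ : ↥(Kx ρ)) : Rl ρ (mn κ.1) = Pi.single κ 1 := by
  classical
  rw [mn, Rl_mon]
  funext τ
  have h := (Finset.mem_filter.1 κ.2).2
  rw [Rw, Pi.single_apply]
  have e : s3 (2 * κ.1.1 / 2, 2 * κ.1.2.1 / 2, 2 * κ.1.2.2 / 2) = κ.1 := by
    rw [Nat.mul_div_cancel_left _ (by norm_num), Nat.mul_div_cancel_left _ (by norm_num),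
      Nat.mul_div_cancel_left _ (by norm_num)]
    exact s3_id h.1 h.2
  rw [e]
  by_cases hτ : τ = κ
  · rw [if_pos hτ, if_pos ⟨even_two_mul _, even_two_mul _, even_two_mul _, by rw [hτ]⟩]
  · rw [if_neg hτ, if_neg]
    rintro ⟨-, -, -, h4⟩
    exact hτ (Subtype.ext h4.symm)

/-- **The relations are independent.** -/
theorem Mm_surj {ρ : ℕ} (hρ : 0 < ρ) : Function.Surjective (Mm ρ) := by
  classical
  rw [← LinearMap.dualMap_injective_iff, injective_iff_map_eq_zero]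
  intro L hL
  set η1 : P3 →ₗ[ℚ] ℚ := (L.comp (LinearMap.inl ℚ _ _)).comp (Rl ρ) with hη1
  set η2 : P3 →ₗ[ℚ] ℚ := (L.comp (LinearMap.inr ℚ _ _)).comp (Rl ρ) with hη2
  have hL' : ∀ c, η1 (mk ρ c) + η2 (sB (mk ρ c)) = 0 := by
    intro c
    have h1 := congrArg (fun f => f c) hL
    have h2 : L (Mm ρ c) = 0 := h1
    have h3 : Mm ρ c = (Rl ρ (mk ρ c), 0) + (0, Rl ρ (sB (mk ρ c))) := by
      rw [Prod.mk_add_mk, add_zero, zero_add]
      rfl
    rw [h3, map_add] at h2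
    exact h2
  have i0 : ∀ p, η2 (s0 p) = η2 p := fun p => by
    show L (0, Rl ρ (s0 p)) = L (0, Rl ρ p)
    rw [Rl_s0]
  have i1 : ∀ p, η2 (s01 p) = η2 p := fun p => by
    show L (0, Rl ρ (s01 p)) = L (0, Rl ρ p)
    rw [Rl_s01]
  have i2 : ∀ p, η2 (s12 p) = η2 p := fun p => by
    show L (0, Rl ρ (s12 p)) = L (0, Rl ρ p)
    rw [Rl_s12]
  have i3 : ∀ p, η2 (s1 p) = η2 p := fun p => by
    show L (0, Rl ρ (s1 p)) = L (0, Rl ρ p)
    rw [Rl_s1]
  have j1 : ∀ p, η1 (s01 p) = η1 p := fun p => by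
    show L (Rl ρ (s01 p), 0) = L (Rl ρ p, 0)
    rw [Rl_s01]
  have j2 : ∀ p, η1 (s12 p) = η1 p := fun p => by
    show L (Rl ρ (s12 p), 0) = L (Rl ρ p, 0)
    rw [Rl_s12]
  have z1 : ∀ p, Rl ρ p = 0 → η1 p = 0 := fun p hp => by
    show L (Rl ρ p, 0) = 0
    rw [hp]
    exact map_zero L
  have z2 : ∀ p, Rl ρ p = 0 → η2 p = 0 := fun p hp => by
    show L (0, Rl ρ p) = 0
    rw [hp]
    exact map_zero L
  -- the sum vanishes at all monomials
  have key : ∀ t : ℕ × ℕ × ℕ, t ∈ Tr ρ → η1 (mn t) + η2 (sB (mn t)) = 0 := by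
    have key0 : ∀ t : ℕ × ℕ × ℕ, t ∈ Jx ρ → η1 (mn t) + η2 (sB (mn t)) = 0 := by
      intro t ht
      have h1 := hL' (Pi.single ⟨t, ht⟩ 1)
      rw [mk_single] at h1
      simp only [map_add] at h1
      rw [← s12_mn, j2, sB_s12, i3] at h1
      linarith
    intro t ht
    by_cases h : t.2.1 ≤ t.2.2
    · exact key0 t (Finset.mem_filter.2 ⟨ht, h⟩)
    · have h1 := key0 (sw t) (Finset.mem_filter.2 ⟨by
        rw [mem_Tr] at ht ⊢
        simp only [sw]
        omega, by simp only [sw]; omega⟩)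
      rw [← s12_mn, j2, sB_s12, i3] at h1
      exact h1
  have zeta : η1 + η2.comp sB.toLinearMap = 0 := by
    apply lin_ext
    intro a b c
    show η1 (X 0 ^ a * X 1 ^ b * X 2 ^ c) + η2 (sB (X 0 ^ a * X 1 ^ b * X 2 ^ c)) = 0
    by_cases h : Even a ∧ Even b ∧ Even c
    · by_cases hd : a + b + c = 2 * ρ
      · obtain ⟨⟨i, rfl⟩, ⟨j, rfl⟩, ⟨l, rfl⟩⟩ := h
        rw [← two_mul, ← two_mul, ← two_mul]
        exact key (i, j, l) (mem_Tr.2 (by simp only; omega))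
      · rw [z1 _ (by rw [Rl_mon, Rw_deg _ _ _ _ hd]), z2 _ (Rl_hom ρ _ _ (sB_hom a b c) hd), add_zero]
    · rw [z1 _ (by rw [Rl_mon, Rw_odd _ _ _ _ h]), z2 _ (RB_odd _ _ _ _ h), add_zero]
  have zeta' : ∀ p, η1 p = - η2 (sB p) := by
    intro p
    have := congrArg (fun f => f p) zeta
    have h2 : η1 p + η2 (sB p) = 0 := this
    linarith
  have h2 : ∀ a b c : ℕ, 0 < a + b + c → η2 (X 0 ^ a * X 1 ^ b * X 2 ^ c) = 0 := by
    intro a b c hp
    refine dual_zero i0 i1 i2 ?_ a b c hp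
    intro g
    have e1 := zeta' (s01 g)
    have e2 := zeta' g
    rw [j1] at e1
    linarith
  have hpos : ∀ κ : ↥(Kx ρ), 0 < 2 * κ.1.1 + 2 * κ.1.2.1 + 2 * κ.1.2.2 := by
    intro κ
    have := mem_Tr.1 (Finset.mem_filter.1 κ.2).1
    omega
  have e2 : ∀ y, L (0, y) = 0 := by
    have : L.comp (LinearMap.inr ℚ _ _) = 0 := by
      apply LinearMap.pi_ext'
      intro κ
      apply LinearMap.ext_ring
      show L (0, Pi.single κ 1) = 0
      rw [← Rl_mn]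
      exact h2 _ _ _ (hpos κ)
    intro y
    exact congrArg (fun f => f y) this
  have e1 : ∀ x, L (x, 0) = 0 := by
    have : L.comp (LinearMap.inl ℚ _ _) = 0 := by
      apply LinearMap.pi_ext'
      intro κ
      apply LinearMap.ext_ring
      show L (Pi.single κ 1, 0) = 0
      rw [← Rl_mn]
      have e3 := zeta' (mn κ.1)
      have e4 : η2 (sB (mn κ.1)) = 0 := e2 _
      rw [e4, neg_zero] at e3
      exact e3
    intro x
    exact congrArg (fun f => f x) this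
  apply LinearMap.ext
  rintro ⟨x, y⟩
  have h3 : ((x, y) : (↥(Kx ρ) → ℚ) × (↥(Kx ρ) → ℚ)) = (x, 0) + (0, y) := by
    rw [Prod.mk_add_mk, add_zero, zero_add]
  rw [h3, map_add, e1, e2, add_zero]
  rfl

theorem finrank_ker_Mm {ρ : ℕ} (hρ : 0 < ρ) :
    Module.finrank ℚ (LinearMap.ker (Mm ρ)) + 2 * (Kx ρ).card = (Jx ρ).card := by
  have h1 := LinearMap.finrank_range_add_finrank_ker (Mm ρ)
  rw [LinearMap.range_eq_top.2 (Mm_surj hρ), finrank_top, Module.finrank_prod,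
    Module.finrank_fintype_fun_eq_card, Module.finrank_fintype_fun_eq_card, Fintype.card_coe,
    Fintype.card_coe] at h1
  omega

end Pool.Agent.V7H62.DM
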