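import Pool.Agent.H352.DSH.TwoC

/-! # Values of Lie polynomials at lists of points, and the cut relations -/

set_option autoImplicit false

namespace Pool.Agent.V7H62.DM

open Pool.Agent.H777R4.DM Pool.Agent.H352.DSH

attribute [local instance 100] LieRing.ofAssociativeRing

/-- the value of a word at a list of points: `x₁` multiplies by the current point, `x₀` moves to the
next point -/
def ev : List (Fin 2) → List ℚ → ℚ
  | _, [] => 0
  | [], [_] => 1
  | [], _ :: _ :: _ => 0
  | i :: u, y :: ys => if i = 1 then y * ev u (y :: ys) else ev u ys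

/-- the value of a polynomial at a list of points -/
noncomputable def F (P : A) (l : List ℚ) : ℚ := lext (fun u => ev u l) P

/-- the sum over the cuts -/
def cut (t : ℚ) : List ℚ → (List ℚ → ℚ) → ℚ
  | [], _ => 0
  | v :: vs, β => β (v :: ((v :: vs).map (· + t))) + cut t vs (fun l => β (v :: l))

theorem cut_smul (t c : ℚ) (vs : List ℚ) : ∀ β : List ℚ → ℚ,
    cut t vs (fun l => c * β l) = c * cut t vs β := by
  induction vs with
  | nil => intro β; simp [cut]
  | cons v vs ih => intro β; rw [cut, cut, ih]; ring

theorem cut_add (t : ℚ) (vs : List ℚ) : ∀ β γ : List ℚ → ℚ,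
    cut t vs (fun l => β l + γ l) = cut t vs β + cut t vs γ := by
  induction vs with
  | nil => intro β γ; simp [cut]
  | cons v vs ih => intro β γ; rw [cut, cut, cut, ih]; ring

theorem cut_zero (t : ℚ) (vs : List ℚ) : cut t vs (fun _ => 0) = 0 := by
  induction vs with
  | nil => simp [cut]
  | cons v vs ih => rw [cut, ih, add_zero]

/-! ### a pair of commuting actions -/

section rep

variable {R : Type} [Ring R] [Algebra ℚ R]

/-- the algebra map with given values at the letters -/
noncomputable def ph (a : Fin 2 → R) : A →ₐ[ℚ] R :=
  MonoidAlgebra.lift ℚ R (FreeMonoid (Fin 2)) (FreeMonoid.lift a)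

theorem ph_nil (a : Fin 2 → R) : ph a (wd []) = 1 := by
  rw [wd_nil, map_one]

theorem ph_one (a : Fin 2 → R) (i : Fin 2) : ph a (wd [i]) = a i := by
  unfold ph
  conv_lhs => unfold wd
  rw [MonoidAlgebra.lift_of]
  rfl

theorem wd_cons' (i : Fin 2) (u : List (Fin 2)) : (wd (i :: u) : A) = wd [i] * wd u := by
  rw [← wd_append]; rfl

theorem ph_cons (a : Fin 2 → R) (i : Fin 2) (u : List (Fin 2)) :
    ph a (wd (i :: u)) = a i * ph a (wd u) := by
  rw [wd_cons', map_mul, ph_one]

theorem ph_comm1 {a b : Fin 2 → R} (h : ∀ i j, Commute (a i) (b j)) (i : Fin 2) (Q : A) :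
    Commute (a i) (ph b Q) := by
  induction Q using ind_words with
  | h0 => rw [map_zero]; exact Commute.zero_right _
  | hadd P Q h1 h2 => rw [map_add]; exact h1.add_right h2
  | hs c l =>
    rw [map_smul]
    refine Commute.smul_right ?_ c
    induction l with
    | nil => rw [ph_nil]; exact Commute.one_right _
    | cons j l ih => rw [ph_cons]; exact (h i j).mul_right ih

theorem ph_comm {a b : Fin 2 → R} (h : ∀ i j, Commute (a i) (b j)) (P Q : A) :
    Commute (ph a P) (ph b Q) := by
  induction P using ind_words with
  | h0 => rw [map_zero]; exact Commute.zero_left _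
  | hadd P P' h1 h2 => rw [map_add]; exact h1.add_left h2
  | hs c l =>
    rw [map_smul]
    refine Commute.smul_left ?_ c
    induction l with
    | nil => rw [ph_nil]; exact Commute.one_left _
    | cons j l ih => rw [ph_cons]; exact (ph_comm1 h j Q).mul_left ih

/-- Lie polynomials act on a tensor product by the Leibniz rule -/
theorem ph_lie {a b : Fin 2 → R} (h : ∀ i j, Commute (a i) (b j)) {P : A} (hP : P ∈ LieX) :
    ph (fun i => a i + b i) P = ph a P + ph b P := by
  unfold LieX at hP
  induction hP using LieSubalgebra.lieSpan_induction with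
  | mem x hx =>
    rcases hx with rfl | rfl
    · unfold x; rw [ph_one, ph_one, ph_one]
    · unfold x; rw [ph_one, ph_one, ph_one]
  | zero => simp
  | add P Q _ _ h1 h2 => rw [map_add, map_add, map_add, h1, h2]; abel
  | smul r P _ h1 => rw [map_smul, map_smul, map_smul, h1, smul_add]
  | lie P Q _ _ h1 h2 =>
    rw [LieRing.of_associative_ring_bracket, map_sub, map_mul, map_mul, h1, h2, map_sub, map_sub,
      map_mul, map_mul, map_mul, map_mul]
    have c1 := (ph_comm h P Q).eq
    have c2 := (ph_comm h Q P).eq
    have e1 : (ph a P + ph b P) * (ph a Q + ph b Q) - (ph a Q + ph b Q) * (ph a P + ph b P) =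
      ph a P * ph a Q - ph a Q * ph a P + (ph b P * ph b Q - ph b Q * ph b P) +
      (ph a P * ph b Q - ph b Q * ph a P) - (ph a Q * ph b P - ph b P * ph a Q) := by noncomm_ring
    rw [e1, c1, c2]
    noncomm_ring

end rep

/-! ### the two actions -/

/-- functions on pairs of a list of points and a sheet -/
abbrev H : Type := List ℚ → Bool → ℚ

/-- the action on the list -/
def opA : Fin 2 → Module.End ℚ H := fun i =>
  { toFun := fun h l s => match l with
      | [] => 0
      | v :: vs => if i = 1 then v * h (v :: vs) s else h vs s
    map_add' := by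
      intro f g; funext l s
      cases l with
      | nil => simp
      | cons v vs =>
        simp only [Pi.add_apply]
        split_ifs <;> ring
    map_smul' := by
      intro c f; funext l s
      cases l with
      | nil => simp
      | cons v vs =>
        simp only [Pi.smul_apply, smul_eq_mul, RingHom.id_apply]
        split_ifs <;> ring }

/-- the action on the sheet -/
def opB (t : ℚ) : Fin 2 → Module.End ℚ H := fun i =>
  { toFun := fun h l s => if i = 1 then (if s then t * h l s else 0) else
      (if s then 0 else h l true)
    map_add' := by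
      intro f g; funext l s
      simp only [Pi.add_apply]
      split_ifs <;> ring
    map_smul' := by
      intro c f; funext l s
      simp only [Pi.smul_apply, smul_eq_mul, RingHom.id_apply]
      split_ifs <;> ring }

theorem op_comm (t : ℚ) (i j : Fin 2) : Commute (opA i) (opB t j) := by
  refine LinearMap.ext fun h => ?_
  funext l s
  show (opA i) ((opB t j) h) l s = (opB t j) ((opA i) h) l s
  cases l with
  | nil => simp [opA, opB]
  | cons v vs =>
    simp only [opA, opB, LinearMap.coe_mk, AddHom.coe_mk]
    split_ifs <;> ring

theorem phA_zero (P : A) : ∀ h : H, (∀ l, h l false = 0) → ∀ l, (ph opA P) h l false = 0 := by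
  induction P using ind_words with
  | h0 => intro h _ l; rw [map_zero]; rfl
  | hadd P Q h1 h2 =>
    intro h hh l
    rw [map_add]
    show (ph opA P) h l false + (ph opA Q) h l false = 0
    rw [h1 h hh, h2 h hh, add_zero]
  | hs c u =>
    intro h hh l
    rw [map_smul]
    show c * (ph opA (wd u)) h l false = 0
    have key : ∀ l, (ph opA (wd u)) h l false = 0 := by
      induction u with
      | nil => intro l; rw [ph_nil]; exact hh l
      | cons i u ih =>
        intro l
        rw [ph_cons]
        show (opA i) ((ph opA (wd u)) h) l false = 0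
        cases l with
        | nil => simp [opA]
        | cons v vs => simp [opA, ih]
    rw [key, mul_zero]

theorem phB_zero (t : ℚ) (P : A) : ∀ (h : H) (l : List ℚ), (∀ s, h l s = 0) →
    ∀ s, (ph (opB t) P) h l s = 0 := by
  induction P using ind_words with
  | h0 => intro h l _ s; rw [map_zero]; rfl
  | hadd P Q h1 h2 =>
    intro h l hh s
    rw [map_add]
    show (ph (opB t) P) h l s + (ph (opB t) Q) h l s = 0
    rw [h1 h l hh, h2 h l hh, add_zero]
  | hs c u =>
    intro h l hh s
    rw [map_smul]
    show c * (ph (opB t) (wd u)) h l s = 0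
    have key : ∀ s, (ph (opB t) (wd u)) h l s = 0 := by
      induction u with
      | nil => intro s; rw [ph_nil]; exact hh s
      | cons i u ih =>
        intro s
        rw [ph_cons]
        show (opB t i) ((ph (opB t) (wd u)) h) l s = 0
        simp [opB, ih]
    rw [key, mul_zero]

/-- the final state -/
def h0 : H := fun l s => if s then ev [] l else 0

/-- the action on both -/
noncomputable def opAB (t : ℚ) : Fin 2 → Module.End ℚ H := fun i => opA i + opB t i

theorem word_true (t : ℚ) (u : List (Fin 2)) : ∀ l : List ℚ,
    (ph (opAB t) (wd u)) h0 l true = ev u (l.map (· + t)) := by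
  induction u with
  | nil =>
    intro l
    rw [ph_nil]
    show h0 l true = _
    unfold h0
    rw [if_pos rfl]
    match l with
    | [] => rfl
    | [_] => rfl
    | _ :: _ :: _ => rfl
  | cons i u ih =>
    intro l
    rw [ph_cons]
    show (opA i + opB t i) ((ph (opAB t) (wd u)) h0) l true = _
    show (opA i) ((ph (opAB t) (wd u)) h0) l true + (opB t i) ((ph (opAB t) (wd u)) h0) l true = _
    cases l with
    | nil => simp [opA, opB, ih, ev]
    | cons v vs =>
      simp only [opA, opB, LinearMap.coe_mk, AddHom.coe_mk, ih, List.map_cons, ev]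
      by_cases hi : i = 1
      · simp only [hi, if_true]
        ring
      · simp only [hi, if_false, if_true]
        ring

theorem word_false (t : ℚ) (u : List (Fin 2)) : ∀ l : List ℚ,
    (ph (opAB t) (wd u)) h0 l false = cut t l (ev u) := by
  induction u with
  | nil =>
    intro l
    rw [ph_nil]
    show h0 l false = _
    unfold h0
    rw [if_neg (by decide)]
    cases l with
    | nil => rfl
    | cons v vs =>
      rw [cut]
      have e1 : ev [] (v :: (v :: vs).map (· + t)) = 0 := rfl
      have e2 : ∀ l : List ℚ, l ≠ [] → ev [] (v :: l) = 0 := by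
        intro l hl
        cases l with
        | nil => exact absurd rfl hl
        | cons w l => rfl
      have e3 : ∀ (vs : List ℚ) (β : List ℚ → ℚ), (∀ l, l ≠ [] → β l = 0) → cut t vs β = 0 := by
        intro vs
        induction vs with
        | nil => intro β _; rfl
        | cons w vs ih =>
          intro β hβ
          rw [cut, hβ _ (by simp), ih _ fun l _ => hβ _ (by simp), add_zero]
      rw [e1, e3 vs _ e2, add_zero]
  | cons i u ih =>
    intro l
    rw [ph_cons]
    show (opA i) ((ph (opAB t) (wd u)) h0) l false + (opB t i) ((ph (opAB t) (wd u)) h0) l false = _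
    cases l with
    | nil =>
      simp only [opA, opB, LinearMap.coe_mk, AddHom.coe_mk, cut, word_true, List.map_nil]
      have : ev u [] = 0 := by cases u <;> rfl
      simp [this]
    | cons v vs =>
      rw [cut]
      simp only [opA, opB, LinearMap.coe_mk, AddHom.coe_mk, ih, word_true, ev]
      by_cases hi : i = 1
      · simp only [hi, if_true]
        rw [cut, cut_smul]
        simp
        ring
      · simp only [hi, if_false]
        simp
        ring

theorem F_add (P Q : A) (l : List ℚ) : F (P + Q) l = F P l + F Q l := map_add _ _ _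

theorem F_smul (c : ℚ) (P : A) (l : List ℚ) : F (c • P) l = c * F P l := map_smul _ _ _

theorem F_wd (u : List (Fin 2)) (l : List ℚ) : F (wd u) l = ev u l := lext_wd _ _

theorem F_zero (l : List ℚ) : F 0 l = 0 := map_zero _

theorem cutF (t : ℚ) (l : List ℚ) (P : A) :
    (ph (opAB t) P) h0 l false = cut t l (F P) := by
  induction P using ind_words with
  | h0 =>
    rw [map_zero]
    rw [show cut t l (F 0) = cut t l (fun _ => 0) from by congr 1,
      cut_zero]
    rfl
  | hadd P Q h1 h2 =>
    rw [map_add]
    show (ph (opAB t) P) h0 l false + (ph (opAB t) Q) h0 l false = _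
    rw [h1, h2, ← cut_add]
    congr 1
    funext l
    exact (F_add P Q l).symm
  | hs c u =>
    rw [map_smul]
    show c * (ph (opAB t) (wd u)) h0 l false = _
    rw [word_false, ← cut_smul]
    congr 1
    funext l
    rw [F_smul, F_wd]

/-- **The cut relations.** -/
theorem cut_lie {P : A} (hP : P ∈ LieX) (t : ℚ) (l : List ℚ) (hl : 2 ≤ l.length) :
    cut t l (F P) = 0 := by
  rw [← cutF]
  have h1 : ph (opAB t) P = ph opA P + ph (opB t) P := ph_lie (op_comm t) hP
  rw [h1]
  show (ph opA P) h0 l false + (ph (opB t) P) h0 l false = 0
  rw [phA_zero P h0 (fun l => by simp [h0]), phB_zero t P h0 l ?_, add_zero]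
  intro s
  unfold h0
  match l, hl with
  | _ :: _ :: _, _ => simp [ev]

end Pool.Agent.V7H62.DM
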