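import Pool.Agent.V7H62.DM.Three

/-! # The leading parts are solutions of the two families of relations -/

set_option autoImplicit false

namespace Pool.Agent.V7H62.DM

open MvPolynomial
open Pool.Agent.H777R4.DM Pool.Agent.H352.DSH

/-- coefficients after a sign change -/
theorem coeff_sign (f : P3 →ₐ[ℚ] P3) (s : (Fin 3 →₀ ℕ) → ℚ)
    (hf : ∀ m : Fin 3 →₀ ℕ, f (monomial m 1) = s m • (monomial m 1 : P3)) (m : Fin 3 →₀ ℕ) (p : P3) :
    coeff m (f p) = s m * coeff m p := by
  have h : (lcoeff ℚ m).comp f.toLinearMap = s m • lcoeff ℚ m := by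
    apply (basisMonomials (Fin 3) ℚ).ext
    intro n
    rw [coe_basisMonomials]
    show coeff m (f (monomial n 1)) = s m * coeff m (monomial n 1)
    rw [hf, coeff_smul, smul_eq_mul, coeff_monomial]
    by_cases hmn : n = m
    · rw [hmn]
    · rw [if_neg hmn, mul_zero, mul_zero]
  exact congrArg (fun g => g p) h

theorem even0 {p : P3} (h : s0 p = p) (m : Fin 3 →₀ ℕ) (hm : coeff m p ≠ 0) : Even (m 0) := by
  by_contra hodd
  have h1 := coeff_sign s0 (fun m => (-1) ^ m 0) (fun m => by
    rw [mon_eq, map3, s00, s0_1, s0_2, smul_eq_C_mul, map_pow, map_neg, C_1, neg_pow]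
    ring) m p
  rw [h, (Nat.not_even_iff_odd.1 hodd).neg_one_pow] at h1
  apply hm
  linarith

theorem even1 {p : P3} (h : s1 p = p) (m : Fin 3 →₀ ℕ) (hm : coeff m p ≠ 0) : Even (m 1) := by
  by_contra hodd
  have h1 := coeff_sign s1 (fun m => (-1) ^ m 1) (fun m => by
    rw [mon_eq, map3, s1_0, s1_1, s1_2, smul_eq_C_mul, map_pow, map_neg, C_1, neg_pow]
    ring) m p
  rw [h, (Nat.not_even_iff_odd.1 hodd).neg_one_pow] at h1
  apply hm
  linarith

theorem mn_mem {ρ : ℕ} {t : ℕ × ℕ × ℕ} (ht : t ∈ Tr ρ) :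
    mn t + mn (sw t) ∈ LinearMap.range (mk ρ) := by
  classical
  by_cases h : t.2.1 ≤ t.2.2
  · exact ⟨Pi.single ⟨t, Finset.mem_filter.2 ⟨ht, h⟩⟩ 1, mk_single _ _⟩
  · refine ⟨Pi.single ⟨sw t, Finset.mem_filter.2 ⟨?_, ?_⟩⟩ 1, ?_⟩
    · rw [mem_Tr] at ht ⊢
      simp only [sw]
      omega
    · simp only [sw]
      omega
    · rw [mk_single, sw_sw, add_comm]

/-- the polynomials with the symmetries are given by their coordinates -/
theorem mem_mk {ρ : ℕ} {p : P3} (h0 : s0 p = p) (h1 : s1 p = p) (h2 : s12 p = p)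
    (hp : p.IsHomogeneous (2 * ρ)) : p ∈ LinearMap.range (mk ρ) := by
  have h3 : p = (1 / 2 : ℚ) • (p + s12 p) := by
    rw [h2, ← two_smul ℚ p, smul_smul]
    norm_num
  rw [h3]
  apply Submodule.smul_mem
  have h4 : p + s12 p = ∑ m ∈ p.support, coeff m p • (monomial m 1 + s12 (monomial m 1)) := by
    conv_lhs => rw [← support_sum_monomial_coeff p]
    rw [map_sum, ← Finset.sum_add_distrib]
    refine Finset.sum_congr rfl fun m _ => ?_
    have h5 : (monomial m (coeff m p) : P3) = coeff m p • monomial m 1 := by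
      rw [smul_monomial, smul_eq_mul, mul_one]
    rw [h5, map_smul, smul_add]
  rw [h4]
  apply Submodule.sum_mem
  intro m hm
  apply Submodule.smul_mem
  have hm' := mem_support_iff.1 hm
  have e0 := even0 h0 m hm'
  have e1 := even1 h1 m hm'
  have hd := hp hm'
  rw [Finsupp.weight_apply, Finsupp.sum_fintype _ _ (by simp), Fin.sum_univ_three] at hd
  simp only [Pi.one_apply, smul_eq_mul, mul_one] at hd
  have e2 : Even (m 2) := by
    obtain ⟨x, hx⟩ := e0
    obtain ⟨y, hy⟩ := e1
    exact ⟨ρ - x - y, by omega⟩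
  obtain ⟨x, hx⟩ := e0
  obtain ⟨y, hy⟩ := e1
  obtain ⟨z, hz⟩ := e2
  have h5 : (monomial m 1 : P3) = mn (x, y, z) := by
    rw [mon_eq, mn, hx, hy, hz]
    simp only
    ring
  rw [h5, s12_mn]
  exact mn_mem (mem_Tr.2 (by simp only; omega))

section
variable {ψ : A} {N : ℕ}

theorem eval3 (x : Fin 3 → ℚ) : x = ![x 0, x 1, x 2] := by
  funext i
  fin_cases i <;> rfl

theorem sol (h : IsDM ψ) (hN : LenHom ψ N) (hm : ∀ u, co ψ u ≠ 0 → 3 ≤ u.count 0)
    {ρ : ℕ} (hρ : N = 2 * ρ + 3) :
    ∃ c ∈ LinearMap.ker (Mm ρ), ∀ x, eval x (mk ρ c) = fv ψ x := by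
  have hO : Odd N := ⟨ρ + 1, by omega⟩
  obtain ⟨p, hp, hd⟩ := fv_poly hN
  rw [show N - 3 = 2 * ρ by omega] at hd
  have vl := fun a b c d : ℚ => vals h hN hm hO a b c d
  -- symmetries of the values
  have E2 : ∀ u v w : ℚ, fv ψ ![u, w, v] = fv ψ ![u, v, w] := by
    intro u v w
    have h1 := (vl ((u + v + w) / 4) ((v - u - w) / 4) ((u - v - w) / 4) ((w - u - v) / 4)).2.1
    rw [F_fv h, F_fv h] at h1
    convert h1 using 3 <;> ring_nf
  have E1 : ∀ u v w : ℚ, fv ψ ![-u, -w, v] = fv ψ ![u, v, w] := by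
    intro u v w
    have h1 := (vl ((u + v + w) / 4) ((v - u - w) / 4) ((u - v - w) / 4) ((w - u - v) / 4)).1
    rw [F_fv h, F_fv h] at h1
    convert h1 using 3 <;> ring_nf
  have E3 : ∀ u v w : ℚ, fv ψ ![-u, -v, -w] = fv ψ ![u, v, w] := by
    intro u v w
    have h1 : sb (- X 0) (- X 1) (- X 2) p = p := by
      have h2 : ∀ m : Fin 3 →₀ ℕ, sb (- X 0) (- X 1) (- X 2) (monomial m 1) =
          (-1 : ℚ) ^ (m 0 + m 1 + m 2) • (monomial m 1 : P3) := by
        intro m
        rw [mon_eq, map3, sb0, sb1, sb2, smul_eq_C_mul, map_pow, map_neg, C_1, neg_pow (X 0 : P3),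
          neg_pow (X 1 : P3), neg_pow (X 2 : P3)]
        ring
      ext m
      rw [coeff_sign _ _ h2]
      by_cases h3 : coeff m p = 0
      · rw [h3, mul_zero]
      · have h4 := hd h3
        rw [Finsupp.weight_apply, Finsupp.sum_fintype _ _ (by simp), Fin.sum_univ_three] at h4
        simp only [Pi.one_apply, smul_eq_mul, mul_one] at h4
        rw [h4, (even_two_mul ρ).neg_one_pow, one_mul]
    have h2 := congrArg (eval ![u, v, w]) h1
    rw [eval_sb] at h2
    simp only [map_neg, eval_X, Matrix.cons_val_zero, Matrix.cons_val_one, Matrix.cons_val_two,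
      Matrix.tail_cons, Matrix.head_cons] at h2
    rw [← hp, ← hp]
    exact h2
  have E4 : ∀ u v w : ℚ, fv ψ ![u, -v, w] = fv ψ ![u, v, w] := by
    intro u v w
    have a1 := E1 u v w
    have a2 := E2 (-u) v (-w)
    have a3 := E3 (-u) v (-w)
    rw [neg_neg, neg_neg] at a3
    rw [a3, ← a2, a1]
  have E5 : ∀ u v w : ℚ, fv ψ ![-u, v, w] = fv ψ ![u, v, w] := by
    intro u v w
    have a3 := E3 (-u) v w
    rw [neg_neg] at a3
    rw [← a3, E4, ← E2, E4, E2]
  have ex : ∀ (a b c : P3) (x : Fin 3 → ℚ), eval x (sb a b c p) =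
      fv ψ ![eval x a, eval x b, eval x c] := by
    intro a b c x
    rw [eval_sb, hp]
  have I0 : s0 p = p := by
    apply MvPolynomial.funext
    intro x
    rw [s0, ex, hp]
    simp only [map_neg, eval_X]
    rw [E5, ← eval3]
  have I1 : s1 p = p := by
    apply MvPolynomial.funext
    intro x
    rw [s1, ex, hp]
    simp only [map_neg, eval_X]
    rw [E4, ← eval3]
  have I2 : s12 p = p := by
    apply MvPolynomial.funext
    intro x
    rw [s12, ex, hp]
    simp only [eval_X]
    rw [E2, ← eval3]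
  -- the first relation
  have R1 : p + s01 p + s12 (s01 p) = 0 := by
    have e : ∀ q : P3, s12 (s01 q) = sb (X 2) (X 0) (X 1) q := by
      intro q
      have : s12.comp s01 = sb (X 2) (X 0) (X 1) := by
        apply sb_ext
        · show s12 (s01 (X 0)) = _
          rw [s010, s121, sb0]
        · show s12 (s01 (X 1)) = _
          rw [s011, s120, sb1]
        · show s12 (s01 (X 2)) = _
          rw [s012, s122, sb2]
      exact congrArg (fun f => f q) this
    apply MvPolynomial.funext
    intro x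
    rw [map_add, map_add, e, s01, ex, ex, hp, map_zero]
    simp only [eval_X]
    conv_lhs => rw [eval3 x]
    simp only [Matrix.cons_val_zero, Matrix.cons_val_one, Matrix.cons_val_two,
      Matrix.tail_cons, Matrix.head_cons]
    set u := x 0
    set v := x 1
    set w := x 2
    have h1 := (vl ((u + v + w) / 4) ((v - u - w) / 4) ((u - v - w) / 4) ((w - u - v) / 4)).2.2
    rw [F_fv h, F_fv h, F_fv h] at h1
    convert h1 using 3
    all_goals
      try congr 1
      congr 1
      · ring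
      · congr 1
        · ring
        · congr 1
          ring
  -- the second relation
  have eB : ∀ x : Fin 3 → ℚ, eval x (sB p) = fv ψ ![x 0 / 2, (x 1 + x 2) / 2, (x 2 - x 1) / 2] := by
    intro x
    rw [sB, ex, hf]
    simp only [map_mul, map_add, map_sub, eval_C, eval_X]
    congr 2
    · ring
    · congr 1
      · ring
      · congr 1
        ring
  have R2 : sB p + s01 (sB p) + s01 (s12 (s01 (sB p))) = 0 := by
    have e : ∀ q : P3, s01 (s12 (s01 q)) = sb (X 2) (X 1) (X 0) q := by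
      intro q
      have : s01.comp (s12.comp s01) = sb (X 2) (X 1) (X 0) := by
        apply sb_ext
        · show s01 (s12 (s01 (X 0))) = _
          rw [s010, s121, s012, sb0]
        · show s01 (s12 (s01 (X 1))) = _
          rw [s011, s120, s010, sb1]
        · show s01 (s12 (s01 (X 2))) = _
          rw [s012, s122, s011, sb2]
      exact congrArg (fun f => f q) this
    apply MvPolynomial.funext
    intro x
    rw [map_add, map_add, e, s01, eval_sb, eval_sb, eB, eB, eB, map_zero]
    simp only [eval_X, Matrix.cons_val_zero, Matrix.cons_val_one, Matrix.cons_val_two,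
      Matrix.tail_cons, Matrix.head_cons]
    set u := x 0
    set v := x 1
    set w := x 2
    have h1 := cut_lie h.mem ((u - v - w) / 4) [u / 2, (u + v - w) / 4, 0] (by simp)
    simp only [cut, List.map_cons, List.map_nil] at h1
    rw [F_fv h, F_fv h, F_fv h] at h1
    have h2 : ∀ a b c a' b' c' : ℚ, a = a' → b = b' → c = c' → fv ψ ![a, b, c] = fv ψ ![a', b', c'] := by
      rintro a b c _ _ _ rfl rfl rfl
      rfl
    have h1' : fv ψ ![v / 2, (u + w) / 2, (w - u) / 2] +
        (fv ψ ![u / 2, (v + w) / 2, (w - v) / 2] +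
        (fv ψ ![w / 2, (v + u) / 2, (u - v) / 2] + 0)) = 0 := by
      refine Eq.trans ?_ h1
      exact congrArg₂ (· + ·) (h2 _ _ _ _ _ _ (by ring) (by ring) (by ring))
        (congrArg₂ (· + ·) (h2 _ _ _ _ _ _ (by ring) (by ring) (by ring))
        (congrArg₂ (· + ·) (h2 _ _ _ _ _ _ (by ring) (by ring) (by ring)) rfl))
    linarith
  obtain ⟨c, hc⟩ := mem_mk I0 I1 I2 hd
  refine ⟨c, ?_, fun x => by rw [hc, hp]⟩
  rw [LinearMap.mem_ker]
  have k1 : Rl ρ p = 0 := by
    have := congrArg (Rl ρ) R1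
    rw [map_add, map_add, Rl_s12, Rl_s01, map_zero] at this
    have h3 : (3 : ℚ) • Rl ρ p = 0 := by
      rw [← this]
      module
    exact (smul_eq_zero.1 h3).resolve_left (by norm_num)
  have k2 : Rl ρ (sB p) = 0 := by
    have := congrArg (Rl ρ) R2
    rw [map_add, map_add, Rl_s01, Rl_s01, Rl_s12, Rl_s01, map_zero] at this
    have h3 : (3 : ℚ) • Rl ρ (sB p) = 0 := by
      rw [← this]
      module
    exact (smul_eq_zero.1 h3).resolve_left (by norm_num)
  have h4 : Mm ρ c = (Rl ρ (mk ρ c), Rl ρ (sB (mk ρ c))) := rfl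
  rw [h4, hc, k1, k2]
  rfl

/-- if all the values vanish then the part with three letters `x₀` vanishes -/
theorem three_zero (h : IsDM ψ) (hf : ∀ x, fv ψ x = 0) (u : List (Fin 2)) (hu : u.count 0 = 3) :
    co ψ u = 0 := by
  obtain ⟨P, h1, h2⟩ := poly_exists 4 (by norm_num) ψ
  have h3 : P = 0 := by
    apply MvPolynomial.funext
    intro y
    have e : y = ![y 0, y 1, y 2, y 3] := by
      funext i
      fin_cases i <;> rfl
    rw [h1, map_zero, e, ← list4, F_fv h, hf]
  have hl : (runs u).length = 4 := by rw [runs_length, hu]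
  obtain ⟨a0, ha0⟩ : ∃ a0 : Fin 4 → ℕ, runs u = List.ofFn a0 := by
    rw [← hl]
    exact ⟨(runs u).get, (List.ofFn_get _).symm⟩
  have h4 := h2 (Finsupp.equivFunOnFinite.symm a0)
  rw [h3, coeff_zero] at h4
  rw [← blk_runs u, ha0]
  exact h4.symm

/-- the values as a linear map -/
noncomputable def fvL : A →ₗ[ℚ] ((Fin 3 → ℚ) → ℚ) where
  toFun ψ := fv ψ
  map_add' ψ φ := by
    funext x
    exact F_add _ _ _
  map_smul' c ψ := by
    funext x
    exact F_smul _ _ _

/-- the space of the functions which satisfy the relations -/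
noncomputable def Sp (ρ : ℕ) : Submodule ℚ ((Fin 3 → ℚ) → ℚ) :=
  (LinearMap.ker (Mm ρ)).map (({ toFun := fun p x => eval x p
                                 map_add' := fun p q => by funext x; simp
                                 map_smul' := fun c p => by funext x; simp [smul_eval] } :
    P3 →ₗ[ℚ] ((Fin 3 → ℚ) → ℚ)).comp (mk ρ))

theorem Sp_finite (ρ : ℕ) : Module.Finite ℚ (Sp ρ) := by
  unfold Sp
  infer_instance

theorem Sp_finrank {ρ : ℕ} (hρ : 0 < ρ) : Module.finrank ℚ (Sp ρ) ≤ ((2 * ρ) ^ 2 - 1) / 48 := by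
  have h1 := Submodule.finrank_map_le (({ toFun := fun p x => eval x p
                                          map_add' := fun p q => by funext x; simp
                                          map_smul' := fun c p => by funext x; simp [smul_eval] } :
    P3 →ₗ[ℚ] ((Fin 3 → ℚ) → ℚ)).comp (mk ρ)) (LinearMap.ker (Mm ρ))
  have h2 := finrank_ker_Mm hρ
  have h3 := card_le hρ
  have h4 : Module.finrank ℚ (Sp ρ) ≤ Module.finrank ℚ (LinearMap.ker (Mm ρ)) := h1
  omega

theorem fvL_mem (h : IsDM ψ) (hN : LenHom ψ N) (hm : ∀ u, co ψ u ≠ 0 → 3 ≤ u.count 0)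
    {ρ : ℕ} (hρ : N = 2 * ρ + 3) : fvL ψ ∈ Sp ρ := by
  obtain ⟨c, hc, h1⟩ := sol h hN hm hρ
  refine ⟨c, hc, ?_⟩
  funext x
  exact h1 x

end

end Pool.Agent.V7H62.DM
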