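import Pool.Agent.V7H62.DM.Four

/-! # Translation invariance of the values -/

set_option autoImplicit false

namespace Pool.Agent.V7H62.DM

/-- translation invariance of the values -/
theorem F_trans {P : H777R4.DM.A} (hP : P ∈ H777R4.DM.LieX) (t : ℚ) (l : List ℚ) (hl : 2 ≤ l.length) :
    F P (l.map (· + t)) = F P l := by
  have h1 : ph (opAB t) P = ph opA P + ph (opB t) P := ph_lie (op_comm t) hP
  have h2 : ∀ (Q : H777R4.DM.A) (l : List ℚ), (ph (opAB t) Q) h0 l true = F Q (l.map (· + t)) := by
    intro Q l
    induction Q using H352.DSH.ind_words with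
    | h0 => rw [map_zero, F_zero]; rfl
    | hadd P Q h1 h2 =>
      rw [map_add, F_add, ← h1, ← h2]
      rfl
    | hs c u =>
      rw [map_smul, F_smul, F_wd, ← word_true]
      rfl
  have h3 : ∀ (Q : H777R4.DM.A) (l : List ℚ), (ph opA Q) h0 l true = F Q l := by
    intro Q l
    have h4 : ∀ (Q : H777R4.DM.A) (l : List ℚ), (ph opA Q) h0 l true = F Q l := by
      intro Q
      induction Q using H352.DSH.ind_words with
      | h0 => intro l; rw [map_zero, F_zero]; rfl
      | hadd P Q h1 h2 =>
        intro l
        rw [map_add, F_add, ← h1, ← h2]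
        rfl
      | hs c u =>
        intro l
        rw [map_smul, F_smul, F_wd]
        show c * (ph opA (H777R4.DM.wd u)) h0 l true = _
        congr 1
        induction u generalizing l with
        | nil =>
          rw [ph_nil]
          show h0 l true = _
          unfold h0
          rw [if_pos rfl]
        | cons i u ih =>
          rw [ph_cons]
          show (opA i) ((ph opA (H777R4.DM.wd u)) h0) l true = _
          cases l with
          | nil => simp [opA, ev]
          | cons v vs => simp [opA, ev, ih]
    exact h4 Q l
  rw [← h2, h1]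
  show (ph opA P) h0 l true + (ph (opB t) P) h0 l true = _
  rw [h3, phB_zero t P h0 l ?_, add_zero]
  intro s
  unfold h0
  match l, hl with
  | _ :: _ :: _, _ => simp [ev]

end Pool.Agent.V7H62.DM
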