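import Pool.Agent.V7H62.DM.Card
import Pool.Agent.V7H62.DM.Trans

/-! # Odd weight: the part with exactly three letters `x₀` at the bottom -/

set_option autoImplicit false

namespace Pool.Agent.V7H62.DM

open MvPolynomial
open Pool.Agent.H777R4.DM Pool.Agent.H352.DSH
open Pool.Agent.R241.DL (blk blk_rot blk_rev' blk_one)

/-- linear relations between the coefficients give relations between the values -/
theorem rel_of {n : ℕ} (hn : n ≠ 0) {P : A} {ι : Type} (s : Finset ι) (c : ι → ℚ)
    (σ : ι → Equiv.Perm (Fin n))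
    (h : ∀ a : Fin n → ℕ, ∑ i ∈ s, c i * co P (blk (List.ofFn (a ∘ σ i))) = 0)
    (y : Fin n → ℚ) : ∑ i ∈ s, c i * F P (List.ofFn (y ∘ σ i)) = 0 := by
  obtain ⟨p, h1, h2⟩ := poly_exists n hn P
  have h3 : ∑ i ∈ s, C (c i) * rename (σ i) p = 0 := by
    ext a
    rw [coeff_sum, coeff_zero, ← h a]
    refine Finset.sum_congr rfl fun i _ => ?_
    have h4 : a = (Finsupp.equivFunOnFinite.symm (a ∘ σ i)).mapDomain (σ i) := by
      ext k
      obtain ⟨j, rfl⟩ := (σ i).surjective k
      rw [Finsupp.mapDomain_apply (σ i).injective]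
      rfl
    rw [coeff_C_mul]
    congr 1
    conv_lhs => rw [h4]
    rw [coeff_rename_mapDomain _ (σ i).injective, h2]
    rfl
  have h5 := congrArg (eval y) h3
  rw [map_zero, map_sum] at h5
  rw [← h5]
  refine Finset.sum_congr rfl fun i _ => ?_
  rw [map_mul, eval_C, eval_rename, h1]

theorem eval_sb (x : Fin 3 → ℚ) (a b c p : P3) :
    eval x (sb a b c p) = eval ![eval x a, eval x b, eval x c] p := by
  rw [sb, ← aeval_eq_eval, ← aeval_eq_eval]
  show aeval x (aeval ![a, b, c] p) = _
  rw [comp_aeval_apply]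
  congr 2
  funext i
  fin_cases i <;> rfl

section
variable {ψ : A} {N : ℕ}

theorem list4 (a b c d : ℚ) : [a, b, c, d] = List.ofFn ![a, b, c, d] := by
  simp [List.ofFn_succ]

theorem list4' (a b c d : ℕ) : [a, b, c, d] = List.ofFn ![a, b, c, d] := by
  simp [List.ofFn_succ]

/-- relations at the values -/
theorem vals (h : IsDM ψ) (hN : LenHom ψ N) (hm : ∀ u, co ψ u ≠ 0 → 3 ≤ u.count 0)
    (hO : Odd N) (a b c d : ℚ) :
    F ψ [b, c, d, a] = F ψ [a, b, c, d] ∧ F ψ [a, d, c, b] = F ψ [a, b, c, d] ∧
    F ψ [a, b, c, d] + F ψ [a, c, b, d] + F ψ [a, c, d, b] = 0 := by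
  have hs : (-1 : ℚ) ^ (N + 1) = 1 := hO.add_one.neg_one_pow
  have ro : ∀ a b c d : ℕ, co ψ (blk [b, c, d, a]) = co ψ (blk [a, b, c, d]) := by
    intro a b c d
    exact blk_rot h hN hm (by norm_num) 1 [a, b, c, d] rfl
  have Rv : ∀ z p q r : ℕ, co ψ (blk [z, r, q, p]) = co ψ (blk [z, p, q, r]) := by
    intro z p q r
    have := blk_rev' h hN hm (by norm_num) z [p, q, r] rfl
    rw [hs, one_mul] at this
    simpa using this
  have I : ∀ z x p q : ℕ, co ψ (blk [z, x, p, q]) + (co ψ (blk [z, p, x, q]) +
      co ψ (blk [z, p, q, x])) = 0 := by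
    intro z x p q
    exact blk_one h hN hm (by norm_num) z x [p, q] rfl
  refine ⟨?_, ?_, ?_⟩
  · have := rel_of (n := 4) (by norm_num) (P := ψ) (Finset.univ : Finset (Fin 2)) ![1, -1]
      ![finRotate 4, 1] (fun x => by
        have := ro (x 0) (x 1) (x 2) (x 3)
        rw [list4', list4'] at this
        rw [Fin.sum_univ_two]
        simp only [Matrix.cons_val_zero, Matrix.cons_val_one]
        have e1 : x ∘ (finRotate 4) = ![x 1, x 2, x 3, x 0] := by
          funext i
          fin_cases i <;> rfl
        have e2 : x ∘ (1 : Equiv.Perm (Fin 4)) = ![x 0, x 1, x 2, x 3] := by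
          funext i
          fin_cases i <;> rfl
        rw [e1, e2, this]
        ring) ![a, b, c, d]
    rw [Fin.sum_univ_two] at this
    simp only [Matrix.cons_val_zero, Matrix.cons_val_one] at this
    have e1 : (![a, b, c, d] : Fin 4 → ℚ) ∘ (finRotate 4) = ![b, c, d, a] := by
      funext i
      fin_cases i <;> rfl
    have e2 : (![a, b, c, d] : Fin 4 → ℚ) ∘ (1 : Equiv.Perm (Fin 4)) = ![a, b, c, d] := by
      funext i
      fin_cases i <;> rfl
    rw [e1, e2] at this
    rw [list4, list4]
    linarith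
  · have := rel_of (n := 4) (by norm_num) (P := ψ) (Finset.univ : Finset (Fin 2)) ![1, -1]
      ![Equiv.swap 1 3, 1] (fun x => by
        have := Rv (x 0) (x 1) (x 2) (x 3)
        rw [list4', list4'] at this
        rw [Fin.sum_univ_two]
        simp only [Matrix.cons_val_zero, Matrix.cons_val_one]
        have e1 : x ∘ (Equiv.swap (1 : Fin 4) 3) = ![x 0, x 3, x 2, x 1] := by
          funext i
          fin_cases i <;> rfl
        have e2 : x ∘ (1 : Equiv.Perm (Fin 4)) = ![x 0, x 1, x 2, x 3] := by
          funext i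
          fin_cases i <;> rfl
        rw [e1, e2, this]
        ring) ![a, b, c, d]
    rw [Fin.sum_univ_two] at this
    simp only [Matrix.cons_val_zero, Matrix.cons_val_one] at this
    have e1 : (![a, b, c, d] : Fin 4 → ℚ) ∘ (Equiv.swap (1 : Fin 4) 3) = ![a, d, c, b] := by
      funext i
      fin_cases i <;> rfl
    have e2 : (![a, b, c, d] : Fin 4 → ℚ) ∘ (1 : Equiv.Perm (Fin 4)) = ![a, b, c, d] := by
      funext i
      fin_cases i <;> rfl
    rw [e1, e2] at this
    rw [list4, list4]
    linarith
  · have := rel_of (n := 4) (by norm_num) (P := ψ) (Finset.univ : Finset (Fin 3)) ![1, 1, 1]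
      ![1, Equiv.swap 1 2, Equiv.swap 1 2 * Equiv.swap 2 3] (fun x => by
        have := I (x 0) (x 1) (x 2) (x 3)
        rw [list4', list4', list4'] at this
        rw [Fin.sum_univ_three]
        simp only [Matrix.cons_val_zero, Matrix.cons_val_one, Matrix.cons_val_two,
          Matrix.tail_cons, Matrix.head_cons]
        have e1 : x ∘ (Equiv.swap (1 : Fin 4) 2) = ![x 0, x 2, x 1, x 3] := by
          funext i
          fin_cases i <;> rfl
        have e2 : x ∘ (1 : Equiv.Perm (Fin 4)) = ![x 0, x 1, x 2, x 3] := by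
          funext i
          fin_cases i <;> rfl
        have e3 : x ∘ (Equiv.swap (1 : Fin 4) 2 * Equiv.swap 2 3 : Equiv.Perm (Fin 4)) =
            ![x 0, x 2, x 3, x 1] := by
          funext i
          fin_cases i <;> rfl
        rw [e1, e2, e3]
        linarith) ![a, b, c, d]
    rw [Fin.sum_univ_three] at this
    simp only [Matrix.cons_val_zero, Matrix.cons_val_one, Matrix.cons_val_two,
          Matrix.tail_cons, Matrix.head_cons] at this
    have e1 : (![a, b, c, d] : Fin 4 → ℚ) ∘ (Equiv.swap (1 : Fin 4) 2) = ![a, c, b, d] := by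
      funext i
      fin_cases i <;> rfl
    have e2 : (![a, b, c, d] : Fin 4 → ℚ) ∘ (1 : Equiv.Perm (Fin 4)) = ![a, b, c, d] := by
      funext i
      fin_cases i <;> rfl
    have e3 : (![a, b, c, d] : Fin 4 → ℚ) ∘
        (Equiv.swap (1 : Fin 4) 2 * Equiv.swap 2 3 : Equiv.Perm (Fin 4)) = ![a, c, d, b] := by
      funext i
      fin_cases i <;> rfl
    rw [e1, e2, e3] at this
    rw [list4, list4, list4]
    linarith

/-- the values in the three coordinates -/
noncomputable def fv (ψ : A) (x : Fin 3 → ℚ) : ℚ :=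
  F ψ [(x 0 + x 1 + x 2) / 4, (x 1 - x 0 - x 2) / 4, (x 0 - x 1 - x 2) / 4, (x 2 - x 0 - x 1) / 4]

theorem F_fv (h : IsDM ψ) (a b c d : ℚ) :
    F ψ [a, b, c, d] = fv ψ ![a + c - b - d, a + b - c - d, a + d - b - c] := by
  rw [fv, ← F_trans h.mem (-(a + b + c + d) / 4) [a, b, c, d] (by simp)]
  simp only [List.map_cons, List.map_nil, Matrix.cons_val_zero, Matrix.cons_val_one,
    Matrix.cons_val_two, Matrix.tail_cons, Matrix.head_cons]
  congr 2
  · ring
  · congr 1
    · ring
    · congr 1
      · ring
      · congr 1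
        ring

/-- the polynomial in the three coordinates -/
theorem fv_poly (hN : LenHom ψ N) :
    ∃ p : P3, (∀ x, eval x p = fv ψ x) ∧ p.IsHomogeneous (N - 3) := by
  obtain ⟨P, h1, h2⟩ := poly_exists 4 (by norm_num) ψ
  have hP : P.IsHomogeneous (N - 3) := by
    intro a ha
    rw [h2] at ha
    have h3 := hN _ ha
    have h4 : (blk (List.ofFn a)).length = (∑ i, a i) + 3 := by
      have : ∀ L : List ℕ, L ≠ [] → (blk L).length + 1 = L.sum + L.length := by
        intro L
        induction L with
        | nil => intro h; exact absurd rfl h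
        | cons x L ih =>
          intro _
          cases L with
          | nil => simp [Pool.Agent.R241.DL.blk]
          | cons y L =>
            have h5 := ih (by simp)
            have h6 : blk (x :: y :: L) = List.replicate x 1 ++ 0 :: blk (y :: L) := rfl
            rw [h6]
            simp only [List.length_append, List.length_replicate, List.length_cons, List.sum_cons]
              at h5 ⊢
            omega
      have h5 := this (List.ofFn a) (by simp)
      rw [List.length_ofFn, List.sum_ofFn] at h5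
      omega
    rw [Finsupp.weight_apply, Finsupp.sum_fintype _ _ (by simp)]
    simp only [Pi.one_apply, smul_eq_mul, mul_one]
    omega
  refine ⟨aeval ![C (1 / 4) * (X 0 + X 1 + X 2), C (1 / 4) * (X 1 - X 0 - X 2),
    C (1 / 4) * (X 0 - X 1 - X 2), C (1 / 4) * (X 2 - X 0 - X 1)] P, ?_, ?_⟩
  · intro x
    rw [← aeval_eq_eval]
    show aeval x (aeval _ P) = _
    rw [comp_aeval_apply, aeval_eq_eval, h1, fv, list4]
    congr 2
    funext i
    fin_cases i <;> simp <;> ring
  · have h0 : (C (1 / 4) : P3).IsHomogeneous 0 := isHomogeneous_C _ _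
    have x0 := isHomogeneous_X ℚ (0 : Fin 3)
    have x1 := isHomogeneous_X ℚ (1 : Fin 3)
    have x2 := isHomogeneous_X ℚ (2 : Fin 3)
    have := hP.aeval (![C (1 / 4) * (X 0 + X 1 + X 2), C (1 / 4) * (X 1 - X 0 - X 2),
      C (1 / 4) * (X 0 - X 1 - X 2), C (1 / 4) * (X 2 - X 0 - X 1)] : Fin 4 → P3) (n := 1)
      (fun i => by
        fin_cases i
        · have := h0.mul ((x0.add x1).add x2)
          rwa [zero_add] at this
        · have := h0.mul ((x1.sub x0).sub x2)
          rwa [zero_add] at this
        · have := h0.mul ((x0.sub x1).sub x2)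
          rwa [zero_add] at this
        · have := h0.mul ((x2.sub x0).sub x1)
          rwa [zero_add] at this)
    rwa [one_mul] at this

end

end Pool.Agent.V7H62.DM
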