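import Pool.Agent.V7H62.DM.Dual

/-! # The two families of relations are independent -/

set_option autoImplicit false

namespace Pool.Agent.V7H62.DM

open MvPolynomial

/-- the triples with sum `ρ` -/
def Tr (ρ : ℕ) : Finset (ℕ × ℕ × ℕ) :=
  (Finset.range (ρ + 1) ×ˢ Finset.range (ρ + 1) ×ˢ Finset.range (ρ + 1)).filter
    fun t => t.1 + t.2.1 + t.2.2 = ρ

theorem mem_Tr {ρ : ℕ} {t : ℕ × ℕ × ℕ} : t ∈ Tr ρ ↔ t.1 + t.2.1 + t.2.2 = ρ := by
  simp only [Tr, Finset.mem_filter, Finset.mem_product, Finset.mem_range]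
  constructor
  · exact fun h => h.2
  · intro h
    exact ⟨⟨by omega, by omega, by omega⟩, h⟩

/-- the triple in increasing order -/
def s3 (t : ℕ × ℕ × ℕ) : ℕ × ℕ × ℕ :=
  (min t.1 (min t.2.1 t.2.2),
    t.1 + t.2.1 + t.2.2 - min t.1 (min t.2.1 t.2.2) - max t.1 (max t.2.1 t.2.2),
    max t.1 (max t.2.1 t.2.2))

theorem s3_sum (a b c : ℕ) : (s3 (a, b, c)).1 + (s3 (a, b, c)).2.1 + (s3 (a, b, c)).2.2 =
    a + b + c := by
  simp only [s3]; omega

theorem s3_01 (a b c : ℕ) : s3 (b, a, c) = s3 (a, b, c) := by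
  simp only [s3, Prod.mk.injEq]
  refine ⟨by omega, by omega, by omega⟩

theorem s3_12 (a b c : ℕ) : s3 (a, c, b) = s3 (a, b, c) := by
  simp only [s3, Prod.mk.injEq]
  refine ⟨by omega, by omega, by omega⟩

theorem s3_id {t : ℕ × ℕ × ℕ} (h1 : t.1 ≤ t.2.1) (h2 : t.2.1 ≤ t.2.2) : s3 t = t := by
  obtain ⟨a, b, c⟩ := t
  simp only at h1 h2
  simp only [s3, Prod.mk.injEq]
  refine ⟨by omega, by omega, by omega⟩

/-- the increasing triples -/
def Kx (ρ : ℕ) : Finset (ℕ × ℕ × ℕ) := (Tr ρ).filter fun t => t.1 ≤ t.2.1 ∧ t.2.1 ≤ t.2.2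

/-- the triples with increasing last two entries -/
def Jx (ρ : ℕ) : Finset (ℕ × ℕ × ℕ) := (Tr ρ).filter fun t => t.2.1 ≤ t.2.2

/-- the values of the relations at the monomials -/
def Rw (ρ a b c : ℕ) : ↥(Kx ρ) → ℚ := fun κ =>
  if Even a ∧ Even b ∧ Even c ∧ s3 (a / 2, b / 2, c / 2) = κ.1 then 1 else 0

theorem Rw_01 (ρ a b c : ℕ) : Rw ρ b a c = Rw ρ a b c := by
  funext κ
  simp only [Rw, s3_01 (a / 2) (b / 2) (c / 2)]
  congr 1
  apply propext
  tauto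

theorem Rw_12 (ρ a b c : ℕ) : Rw ρ a c b = Rw ρ a b c := by
  funext κ
  simp only [Rw, s3_12 (a / 2) (b / 2) (c / 2)]
  congr 1
  apply propext
  tauto

theorem Rw_odd (ρ a b c : ℕ) (h : ¬ (Even a ∧ Even b ∧ Even c)) : Rw ρ a b c = 0 := by
  funext κ
  rw [Rw, if_neg]
  · rfl
  · rintro ⟨h1, h2, h3, -⟩
    exact h ⟨h1, h2, h3⟩

theorem Rw_deg (ρ a b c : ℕ) (h : a + b + c ≠ 2 * ρ) : Rw ρ a b c = 0 := by
  funext κ
  rw [Rw, if_neg]
  · rfl
  · rintro ⟨h1, h2, h3, h4⟩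
    have h5 := (Finset.mem_filter.1 κ.2).1
    rw [mem_Tr] at h5
    have h6 := s3_sum (a / 2) (b / 2) (c / 2)
    rw [h4] at h6
    obtain ⟨x, hx⟩ := h1
    obtain ⟨y, hy⟩ := h2
    obtain ⟨z, hz⟩ := h3
    omega

/-- the relations -/
noncomputable def Rl (ρ : ℕ) : P3 →ₗ[ℚ] (↥(Kx ρ) → ℚ) :=
  (basisMonomials (Fin 3) ℚ).constr ℚ fun m => Rw ρ (m 0) (m 1) (m 2)

theorem mon_eq (m : Fin 3 →₀ ℕ) :
    (monomial m (1 : ℚ) : P3) = X 0 ^ m 0 * X 1 ^ m 1 * X 2 ^ m 2 := by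
  rw [monomial_eq, C_1, one_mul, Finsupp.prod_fintype _ _ (by simp), Fin.prod_univ_three]

theorem mon_eq' (a b c : ℕ) : (X 0 ^ a * X 1 ^ b * X 2 ^ c : P3) =
    monomial (Finsupp.equivFunOnFinite.symm ![a, b, c]) (1 : ℚ) := by
  rw [mon_eq]
  rfl

theorem Rl_mon (ρ a b c : ℕ) : Rl ρ (X 0 ^ a * X 1 ^ b * X 2 ^ c) = Rw ρ a b c := by
  rw [mon_eq', Rl]
  have := (basisMonomials (Fin 3) ℚ).constr_basis ℚ
    (fun m => Rw ρ (m 0) (m 1) (m 2)) (Finsupp.equivFunOnFinite.symm ![a, b, c])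
  rw [coe_basisMonomials] at this
  rw [this]
  rfl

theorem lin_ext {V : Type} [AddCommMonoid V] [Module ℚ V] {f g : P3 →ₗ[ℚ] V}
    (h : ∀ a b c : ℕ, f (X 0 ^ a * X 1 ^ b * X 2 ^ c) = g (X 0 ^ a * X 1 ^ b * X 2 ^ c)) : f = g := by
  apply (basisMonomials (Fin 3) ℚ).ext
  intro m
  rw [coe_basisMonomials]
  show f (monomial m 1) = g (monomial m 1)
  rw [mon_eq]
  exact h _ _ _

/-- invariance under a substitution, checked at monomials -/
theorem Rl_inv {ρ : ℕ} (f : P3 →ₐ[ℚ] P3)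
    (h : ∀ a b c : ℕ, Rl ρ (f (X 0) ^ a * f (X 1) ^ b * f (X 2) ^ c) = Rw ρ a b c) (p : P3) :
    Rl ρ (f p) = Rl ρ p := by
  have h1 : (Rl ρ).comp f.toLinearMap = Rl ρ := by
    apply lin_ext
    intro a b c
    rw [Rl_mon, ← h]
    show Rl ρ (f _) = _
    rw [map3]
  exact congrArg (fun g => g p) h1

theorem Rl_s0 (ρ : ℕ) (p : P3) : Rl ρ (s0 p) = Rl ρ p := by
  apply Rl_inv
  intro a b c
  rw [s00, s0_1, s0_2]
  rcases Nat.even_or_odd a with ha | ha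
  · rw [ha.neg_pow, Rl_mon]
  · rw [ha.neg_pow, neg_mul, neg_mul, map_neg, Rl_mon, Rw_odd ρ a b c, neg_zero]
    rintro ⟨h, -⟩
    exact (Nat.not_even_iff_odd.2 ha) h

theorem Rl_s01 (ρ : ℕ) (p : P3) : Rl ρ (s01 p) = Rl ρ p := by
  apply Rl_inv
  intro a b c
  rw [s010, s011, s012, ← Rw_01, ← Rl_mon]
  congr 1
  ring

theorem Rl_s12 (ρ : ℕ) (p : P3) : Rl ρ (s12 p) = Rl ρ p := by
  apply Rl_inv
  intro a b c
  rw [s120, s121, s122, ← Rw_12, ← Rl_mon]
  congr 1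
  ring

/-- the sign change of the second variable -/
noncomputable def s1 : P3 →ₐ[ℚ] P3 := sb (X 0) (- X 1) (X 2)
theorem s1_0 : s1 (X 0) = X 0 := sb0 _ _ _
theorem s1_1 : s1 (X 1) = - X 1 := sb1 _ _ _
theorem s1_2 : s1 (X 2) = X 2 := sb2 _ _ _

theorem Rl_s1 (ρ : ℕ) (p : P3) : Rl ρ (s1 p) = Rl ρ p := by
  have h : s1 = s01.comp (s0.comp s01) := by
    apply sb_ext
    · show s1 (X 0) = s01 (s0 (s01 (X 0)))
      rw [s1_0, s010, s0_1, s011]
    · show s1 (X 1) = s01 (s0 (s01 (X 1)))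
      rw [s1_1, s011, s00, map_neg, s010]
    · show s1 (X 2) = s01 (s0 (s01 (X 2)))
      rw [s1_2, s012, s0_2, s012]
  rw [h]
  show Rl ρ (s01 (s0 (s01 p))) = Rl ρ p
  rw [Rl_s01, Rl_s0, Rl_s01]

theorem sB_s0 (p : P3) : sB (s0 p) = s0 (sB p) := by
  have h : sB.comp s0 = s0.comp sB := by
    apply sb_ext
    · show sB (s0 (X 0)) = s0 (sB (X 0))
      rw [s00, map_neg, sB0, map_mul, map_hf, s00]; ring
    · show sB (s0 (X 1)) = s0 (sB (X 1))
      rw [s0_1, sB1, map_mul, map_hf, map_add, s0_1, s0_2]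
    · show sB (s0 (X 2)) = s0 (sB (X 2))
      rw [s0_2, sB2, map_mul, map_hf, map_sub, s0_1, s0_2]
  exact congrArg (fun f => f p) h

theorem sB_s12 (p : P3) : sB (s12 p) = s1 (sB p) := by
  have h : sB.comp s12 = s1.comp sB := by
    apply sb_ext
    · show sB (s12 (X 0)) = s1 (sB (X 0))
      rw [s120, sB0, map_mul, map_hf, s1_0]
    · show sB (s12 (X 1)) = s1 (sB (X 1))
      rw [s121, sB1, sB2, map_mul, map_hf, map_add, s1_1, s1_2]; ring
    · show sB (s12 (X 2)) = s1 (sB (X 2))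
      rw [s122, sB1, sB2, map_mul, map_hf, map_sub, s1_1, s1_2]; ring
  exact congrArg (fun f => f p) h

theorem sB_s2 (p : P3) : sB (s12 (s1 (s12 p))) = s12 (sB p) := by
  have h : sB.comp (s12.comp (s1.comp s12)) = s12.comp sB := by
    apply sb_ext
    · show sB (s12 (s1 (s12 (X 0)))) = s12 (sB (X 0))
      rw [s120, s1_0, s120, sB0, map_mul, map_hf, s120]
    · show sB (s12 (s1 (s12 (X 1)))) = s12 (sB (X 1))
      rw [s121, s1_2, s122, sB1, map_mul, map_hf, map_add, s121, s122]; ring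
    · show sB (s12 (s1 (s12 (X 2)))) = s12 (sB (X 2))
      rw [s122, s1_1, map_neg, s121, map_neg, sB2, map_mul, map_hf, map_sub, s121, s122]; ring
  exact congrArg (fun f => f p) h

/-- `R ∘ B` vanishes at the monomials with an odd exponent -/
theorem RB_odd (ρ a b c : ℕ) (h : ¬ (Even a ∧ Even b ∧ Even c)) :
    Rl ρ (sB (X 0 ^ a * X 1 ^ b * X 2 ^ c)) = 0 := by
  by_cases ha : Even a
  · by_cases hb : Even b
    · have hc : Odd c := by
        rw [← Nat.not_even_iff_odd]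
        exact fun hc => h ⟨ha, hb, hc⟩
      have h1 : s12 (s1 (s12 (X 0 ^ a * X 1 ^ b * X 2 ^ c))) = - (X 0 ^ a * X 1 ^ b * X 2 ^ c) := by
        have h0 : (s12.comp (s1.comp s12)) (X 0 ^ a * X 1 ^ b * X 2 ^ c) =
            s12 (s1 (s12 (X 0))) ^ a * s12 (s1 (s12 (X 1))) ^ b * s12 (s1 (s12 (X 2))) ^ c :=
          map3 _ _ _ _
        have h0' : s12 (s1 (s12 (X 0 ^ a * X 1 ^ b * X 2 ^ c))) =
            s12 (s1 (s12 (X 0))) ^ a * s12 (s1 (s12 (X 1))) ^ b * s12 (s1 (s12 (X 2))) ^ c := h0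
        rw [h0', s120, s121, s122, s1_0, s1_1, s1_2, s120, map_neg, s121, s122, hc.neg_pow]
        ring
      have h2 := sB_s2 (X 0 ^ a * X 1 ^ b * X 2 ^ c)
      rw [h1, map_neg] at h2
      have h3 := congrArg (Rl ρ) h2
      rw [Rl_s12, map_neg] at h3
      exact neg_eq_self.1 h3
    · have hb' : Odd b := Nat.not_even_iff_odd.1 hb
      have h1 : s1 (X 0 ^ a * X 1 ^ b * X 2 ^ c) = - (X 0 ^ a * X 1 ^ b * X 2 ^ c) := by
        rw [map3, s1_0, s1_1, s1_2, hb'.neg_pow]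
        ring
      have h4 : ∀ p : P3, Rl ρ (sB (s1 p)) = Rl ρ (sB p) := by
        intro p
        have e1 : s12 (s12 p) = p := by
          have : s12.comp s12 = AlgHom.id ℚ P3 := by
            apply sb_ext
            · show s12 (s12 (X 0)) = X 0
              rw [s120, s120]
            · show s12 (s12 (X 1)) = X 1
              rw [s121, s122]
            · show s12 (s12 (X 2)) = X 2
              rw [s122, s121]
          exact congrArg (fun f => f p) this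
        have e2 := sB_s2 (s12 p)
        rw [e1] at e2
        have e3 := congrArg (Rl ρ) e2
        rw [sB_s12, Rl_s1, Rl_s12, sB_s12, Rl_s1] at e3
        exact e3
      have h2 := h4 (X 0 ^ a * X 1 ^ b * X 2 ^ c)
      rw [h1, map_neg, map_neg] at h2
      exact neg_eq_self.1 h2
  · have ha' : Odd a := Nat.not_even_iff_odd.1 ha
    have h1 : s0 (X 0 ^ a * X 1 ^ b * X 2 ^ c) = - (X 0 ^ a * X 1 ^ b * X 2 ^ c) := by
      rw [map3, s00, s0_1, s0_2, ha'.neg_pow]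
      ring
    have h2 := sB_s0 (X 0 ^ a * X 1 ^ b * X 2 ^ c)
    rw [h1, map_neg] at h2
    have h3 := congrArg (Rl ρ) h2
    rw [Rl_s0, map_neg] at h3
    exact neg_eq_self.1 h3

theorem Rl_hom (ρ d : ℕ) (p : P3) (hp : p.IsHomogeneous d) (hd : d ≠ 2 * ρ) : Rl ρ p = 0 := by
  rw [← support_sum_monomial_coeff p, map_sum]
  apply Finset.sum_eq_zero
  intro m hm
  have h1 : monomial m (coeff m p) = (coeff m p) • (monomial m (1 : ℚ) : P3) := by
    rw [smul_monomial, smul_eq_mul, mul_one]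
  rw [h1, map_smul, mon_eq, Rl_mon, Rw_deg, smul_zero]
  have h2 := hp (mem_support_iff.1 hm)
  rw [← h2] at hd
  intro h3
  apply hd
  rw [← h3, Finsupp.weight_apply, Finsupp.sum_fintype _ _ (by simp), Fin.sum_univ_three]
  simp

theorem sB_hom (a b c : ℕ) : (sB (X 0 ^ a * X 1 ^ b * X 2 ^ c)).IsHomogeneous (a + b + c) := by
  rw [map3, sB0, sB1, sB2]
  have h0 : hf.IsHomogeneous 0 := isHomogeneous_C _ _
  have e1 : (hf * X 0 : P3).IsHomogeneous 1 := by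
    have := h0.mul (isHomogeneous_X ℚ (0 : Fin 3))
    rwa [zero_add] at this
  have e2 : (hf * (X 1 + X 2) : P3).IsHomogeneous 1 := by
    have := h0.mul ((isHomogeneous_X ℚ (1 : Fin 3)).add (isHomogeneous_X ℚ (2 : Fin 3)))
    rwa [zero_add] at this
  have e3 : (hf * (X 2 - X 1) : P3).IsHomogeneous 1 := by
    have := h0.mul ((isHomogeneous_X ℚ (2 : Fin 3)).sub (isHomogeneous_X ℚ (1 : Fin 3)))
    rwa [zero_add] at this
  have := ((e1.pow a).mul (e2.pow b)).mul (e3.pow c)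
  simpa using this

end Pool.Agent.V7H62.DM
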